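import Pool.Agent.H77.CAY.Defs

/-! The amalgamation of conditions. -/

set_option autoImplicit false
set_option linter.unusedVariables false

namespace CAY

section
variable {Ω Λ : Type} [LinearOrder Λ] {B : Base Ω Λ}

/-- the group of a condition -/
def Gp (p : Cond B) : Type := {x : Ω // x ∈ p.dom}

instance (p : Cond B) : Mul (Gp p) := ⟨fun x y => ⟨p.mul x.1 y.1, p.mul_mem _ x.2 _ y.2⟩⟩
instance (p : Cond B) : One (Gp p) := ⟨⟨B.e, p.one_mem⟩⟩
instance (p : Cond B) : Inv (Gp p) := ⟨fun x => ⟨p.inv x.1, p.inv_mem _ x.2⟩⟩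

instance (p : Cond B) : Group (Gp p) := Group.ofLeftAxioms
  (fun x y z => Subtype.ext (p.assoc _ x.2 _ y.2 _ z.2))
  (fun x => Subtype.ext (p.one_mul _ x.2)) (fun x => Subtype.ext (p.inv_mul _ x.2))

instance (p : Cond B) : Finite (Gp p) := by unfold Gp; infer_instance

theorem gp_mul (p : Cond B) (x y : Gp p) : (x * y).1 = p.mul x.1 y.1 := rfl
theorem gp_one (p : Cond B) : (1 : Gp p).1 = B.e := rfl

/-- a condition from a finite group and an injection -/
theorem transport (Q : Type) [Group Q] [Finite Q] (rk : Q → Λ)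
    (hrk : ∀ u v, rk (u * v) ≤ max (rk u) (rk v)) (S : Set Q) (g : Q → Ω) (hg : Set.InjOn g S)
    (hl : ∀ u ∈ S, B.lev (g u) = rk u) (h1 : (1 : Q) ∈ S) (hg1 : g 1 = B.e) :
    ∃ (q : Cond B) (j : Q → Ω), Function.Injective j ∧ (∀ u ∈ S, j u = g u) ∧
      (∀ u, j u ∈ q.dom) ∧ ∀ u v, q.mul (j u) (j v) = j (u * v) := by
  classical
  have fresh : ∀ l, ∃ h : ℕ → Ω, Function.Injective h ∧ ∀ n, B.lev (h n) = l ∧ h n ∉ g '' S := by
    intro l
    have hinf : ({x | B.lev x = l} \ (g '' S)).Infinite :=
      (B.inf l).sdiff ((Set.toFinite S).image g)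
    refine ⟨fun n => (hinf.natEmbedding _ n).1, fun a b hab => ?_, fun n => ?_⟩
    · exact (hinf.natEmbedding _).injective (Subtype.ext hab)
    · exact (hinf.natEmbedding _ n).2
  choose h hinj hlev using fresh
  obtain ⟨idx, hidx⟩ := exists_injective_nat Q
  set j : Q → Ω := fun u => if u ∈ S then g u else h (rk u) (idx u) with hj
  have hjS : ∀ u ∈ S, j u = g u := fun u hu => by simp [hj, hu]
  have hjN : ∀ u, u ∉ S → j u = h (rk u) (idx u) := fun u hu => by simp [hj, hu]
  have hjl : ∀ u, B.lev (j u) = rk u := by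
    intro u
    by_cases hu : u ∈ S
    · rw [hjS u hu]; exact hl u hu
    · rw [hjN u hu]; exact (hlev _ _).1
  have hjinj : Function.Injective j := by
    intro u v huv
    by_cases hu : u ∈ S
    · by_cases hv : v ∈ S
      · rw [hjS u hu, hjS v hv] at huv
        exact hg hu hv huv
      · rw [hjS u hu, hjN v hv] at huv
        exact absurd ⟨u, hu, huv⟩ (hlev (rk v) (idx v)).2
    · by_cases hv : v ∈ S
      · rw [hjN u hu, hjS v hv] at huv
        exact absurd ⟨v, hv, huv.symm⟩ (hlev (rk u) (idx u)).2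
      · have h2 := hjl u
        rw [huv, hjl v] at h2
        rw [hjN u hu, hjN v hv, h2] at huv
        exact hidx (hinj _ huv)
  have hinv := Function.leftInverse_invFun hjinj
  let q : Cond B :=
    { dom := (Set.finite_range j).toFinset
      mul := fun x y => j (Function.invFun j x * Function.invFun j y)
      inv := fun x => j (Function.invFun j x)⁻¹
      one_mem := by rw [← hg1, ← hjS 1 h1]; simp
      mul_mem := by intro x _ y _; simp
      inv_mem := by intro x _; simp
      assoc := by
        intro x _ y _ z _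
        simp only [hinv _]
        rw [mul_assoc]
      one_mul := by
        intro x hx
        obtain ⟨u, rfl⟩ : ∃ u, j u = x := by simpa using hx
        rw [← hg1, ← hjS 1 h1, hinv, hinv, _root_.one_mul]
      inv_mul := by
        intro x hx
        obtain ⟨u, rfl⟩ : ∃ u, j u = x := by simpa using hx
        rw [hinv, hinv, inv_mul_cancel, hjS 1 h1, hg1]
      lev_mul := by
        intro x hx y hy
        obtain ⟨u, rfl⟩ : ∃ u, j u = x := by simpa using hx
        obtain ⟨v, rfl⟩ : ∃ v, j v = y := by simpa using hy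
        rw [hinv, hinv, hjl, hjl, hjl]
        exact hrk u v }
  refine ⟨q, j, hjinj, hjS, fun u => ?_, fun u v => ?_⟩
  · show j u ∈ (Set.finite_range j).toFinset
    simp
  · show j (Function.invFun j (j u) * Function.invFun j (j v)) = _
    rw [hinv, hinv]

/-- the least element of a condition: the unit; levels of powers -/
theorem cond_ext_group {p : Cond B} (x y : Gp p) : B.lev (x * y).1 ≤ max (B.lev x.1) (B.lev y.1) :=
  p.lev_mul _ x.2 _ y.2

end

/-- EXT -/
theorem ext : EXTStmt := by
  classical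
  intro Ω Λ _ _ B p ξ
  by_cases hξ : ξ ∈ p.dom
  · exact ⟨p, le_rfl, hξ⟩
  have hne : ξ ≠ B.e := fun h => hξ (h ▸ p.one_mem)
  let Q := Gp p × Multiplicative (ZMod 2)
  let rk : Q → Λ := fun u => if u.2 = 1 then B.lev u.1.1 else max (B.lev u.1.1) (B.lev ξ)
  let S : Set Q := {u | u.2 = 1} ∪ {(1, Multiplicative.ofAdd 1)}
  let g : Q → Ω := fun u => if u.2 = 1 then u.1.1 else ξ
  have hm : ∀ u : Q, u ∈ S → u.2 = 1 ∨ u = (1, Multiplicative.ofAdd 1) := fun u hu => hu
  have hc : (Multiplicative.ofAdd (1 : ZMod 2)) ≠ 1 := by decide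
  obtain ⟨q, j, hj, hjS, hjd, hjm⟩ := transport (B := B) Q rk (by
    intro u v
    have h0 := cond_ext_group u.1 v.1
    have hlu : B.lev u.1.1 ≤ rk u := by simp only [rk]; split_ifs <;> simp
    have hlv : B.lev v.1.1 ≤ rk v := by simp only [rk]; split_ifs <;> simp
    have h1 : B.lev (u.1 * v.1).1 ≤ max (rk u) (rk v) := h0.trans (max_le_max hlu hlv)
    by_cases huv : (u * v).2 = 1
    · have : rk (u * v) = B.lev (u.1 * v.1).1 := by simp only [rk]; rw [if_pos huv]; rfl
      rw [this]; exact h1
    · have : rk (u * v) = max (B.lev (u.1 * v.1).1) (B.lev ξ) := by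
        simp only [rk]; rw [if_neg huv]; rfl
      rw [this]
      refine max_le h1 ?_
      by_cases hu : u.2 = 1
      · have hv : v.2 ≠ 1 := fun hv => huv (by show u.2 * v.2 = 1; rw [hu, hv, _root_.one_mul])
        refine le_max_of_le_right ?_
        simp only [rk]; rw [if_neg hv]; exact le_max_right _ _
      · refine le_max_of_le_left ?_
        simp only [rk]; rw [if_neg hu]; exact le_max_right _ _) S g (by
    intro u hu v hv huv
    rcases hm u hu with h | h <;> rcases hm v hv with h' | h'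
    · have e1 : g u = u.1.1 := by simp only [g]; rw [if_pos h]
      have e2 : g v = v.1.1 := by simp only [g]; rw [if_pos h']
      rw [e1, e2] at huv
      exact Prod.ext (Subtype.ext huv) (h.trans h'.symm)
    · have e1 : g u = u.1.1 := by simp only [g]; rw [if_pos h]
      have e2 : g v = ξ := by rw [h']; simp only [g]; rw [if_neg hc]
      rw [e1, e2] at huv
      exact absurd (huv ▸ u.1.2) hξ
    · have e1 : g v = v.1.1 := by simp only [g]; rw [if_pos h']
      have e2 : g u = ξ := by rw [h]; simp only [g]; rw [if_neg hc]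
      rw [e1, e2] at huv
      exact absurd (huv.symm ▸ v.1.2) hξ
    · rw [h, h']) (by
    intro u hu
    rcases hm u hu with h | h
    · simp only [g, rk]; rw [if_pos h, if_pos h]
    · rw [h]
      simp only [g, rk]
      rw [if_neg hc, if_neg hc]
      exact (max_eq_right (B.e_min ξ)).symm) (Or.inl rfl) (by simp only [g]; rfl)
  refine ⟨q, ⟨?_, ?_⟩, ?_⟩
  · intro x hx
    have : j (⟨x, hx⟩, 1) = x := by
      rw [hjS _ (Or.inl rfl)]
      exact if_pos rfl
    rw [← this]; exact hjd _
  · intro x hx y hy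
    have ex : ∀ z (hz : z ∈ p.dom), j (⟨z, hz⟩, 1) = z := by
      intro z hz
      rw [hjS _ (Or.inl rfl)]
      exact if_pos rfl
    have h1 := hjm (⟨x, hx⟩, 1) (⟨y, hy⟩, 1)
    rw [ex, ex] at h1
    rw [h1]
    have : ((⟨x, hx⟩, 1) * (⟨y, hy⟩, 1) : Q) = (⟨p.mul x y, p.mul_mem _ hx _ hy⟩, 1) := by
      refine Prod.ext rfl ?_
      show (1 : Multiplicative (ZMod 2)) * 1 = 1
      rw [_root_.one_mul]
    rw [this, ex]
  · have : j (1, Multiplicative.ofAdd 1) = ξ := by
      rw [hjS _ (Or.inr rfl)]
      simp only [g]; rw [if_neg hc]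
    rw [← this]; exact hjd _

end CAY
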