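import Pool.Agent.H77.CAY.Alg

/-! The amalgamation of three isomorphic conditions: `(ℤ/4)^(P/R) ⋊ P`. -/

set_option autoImplicit false
set_option linter.unusedVariables false

namespace CAY

/-- pairs of a function on `X` and an element of `G` -/
@[ext] structure WG (G X : Type) where
  a : X → ZMod 4
  g : G

section
variable {G X : Type} [Group G] [MulAction G X]

instance : Mul (WG G X) := ⟨fun u v => ⟨fun x => u.a x + v.a (u.g⁻¹ • x), u.g * v.g⟩⟩
instance : One (WG G X) := ⟨⟨fun _ => 0, 1⟩⟩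
instance : Inv (WG G X) := ⟨fun u => ⟨fun x => - u.a (u.g • x), u.g⁻¹⟩⟩

theorem wg_mul_a (u v : WG G X) (x : X) : (u * v).a x = u.a x + v.a (u.g⁻¹ • x) := rfl
theorem wg_mul_g (u v : WG G X) : (u * v).g = u.g * v.g := rfl
theorem wg_one_a (x : X) : (1 : WG G X).a x = 0 := rfl
theorem wg_one_g : (1 : WG G X).g = 1 := rfl

instance : Group (WG G X) := Group.ofLeftAxioms
  (fun u v w => by
    refine WG.ext (funext fun x => ?_) (mul_assoc _ _ _)
    show u.a x + v.a (u.g⁻¹ • x) + w.a ((u.g * v.g)⁻¹ • x) =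
      u.a x + (v.a (u.g⁻¹ • x) + w.a (v.g⁻¹ • (u.g⁻¹ • x)))
    rw [mul_inv_rev, mul_smul, add_assoc])
  (fun u => by
    refine WG.ext (funext fun x => ?_) (one_mul _)
    show (0 : ZMod 4) + u.a ((1 : G)⁻¹ • x) = u.a x
    rw [inv_one, one_smul, zero_add])
  (fun u => by
    refine WG.ext (funext fun x => ?_) (inv_mul_cancel _)
    show - u.a (u.g • x) + u.a ((u.g⁻¹)⁻¹ • x) = 0
    rw [inv_inv, neg_add_cancel])

theorem wg_inv_a (u : WG G X) (x : X) : (u⁻¹).a x = - u.a (u.g • x) := rfl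
theorem wg_inv_g (u : WG G X) : (u⁻¹).g = (u.g)⁻¹ := rfl

instance [Finite G] [Finite X] : Finite (WG G X) :=
  Finite.of_injective (fun u : WG G X => (u.a, u.g)) (fun u v h => by
    have h1 := congrArg Prod.fst h
    have h2 := congrArg Prod.snd h
    exact WG.ext h1 h2)

end

open Classical

section
variable {G : Type} [Group G] (R : Subgroup G)

/-- the indicator of a point -/
noncomputable def dl (y x : G ⧸ R) : ZMod 4 := if x = y then 1 else 0

/-- the embeddings -/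
noncomputable def fe (i : ZMod 4) (p : G) : WG G (G ⧸ R) :=
  ⟨fun x => i * (dl R (p : G ⧸ R) x - dl R ((1 : G) : G ⧸ R) x), p⟩

theorem dl_smul (p y : G) (x : G ⧸ R) :
    dl R (y : G ⧸ R) (p⁻¹ • x) = dl R ((p * y : G) : G ⧸ R) x := by
  unfold dl
  have : p⁻¹ • x = (y : G ⧸ R) ↔ x = ((p * y : G) : G ⧸ R) := by
    rw [inv_smul_eq_iff]; rfl
  by_cases h : x = ((p * y : G) : G ⧸ R)
  · rw [if_pos (this.2 h), if_pos h]
  · rw [if_neg (fun h' => h (this.1 h')), if_neg h]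

theorem fe_mul (i : ZMod 4) (p q : G) : fe R i (p * q) = fe R i p * fe R i q := by
  refine WG.ext (funext fun x => ?_) rfl
  show i * (dl R ((p * q : G) : G ⧸ R) x - dl R ((1 : G) : G ⧸ R) x) =
    i * (dl R (p : G ⧸ R) x - dl R ((1 : G) : G ⧸ R) x) +
    i * (dl R (q : G ⧸ R) (p⁻¹ • x) - dl R ((1 : G) : G ⧸ R) (p⁻¹ • x))
  rw [dl_smul, dl_smul, mul_one]
  ring

theorem fe_one (i : ZMod 4) : fe R i 1 = 1 := by
  refine WG.ext (funext fun x => ?_) rfl
  show i * (dl R ((1 : G) : G ⧸ R) x - dl R ((1 : G) : G ⧸ R) x) = 0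
  rw [sub_self, mul_zero]

theorem fe_prog (p : G) : fe R 0 p * ((fe R 0 p)⁻¹ * fe R 1 p) = fe R 1 p ∧
    fe R 1 p * ((fe R 0 p)⁻¹ * fe R 1 p) = fe R 2 p := by
  refine ⟨mul_inv_cancel_left _ _, ?_⟩
  refine WG.ext (funext fun x => ?_) ?_
  · rw [wg_mul_a, wg_mul_a, wg_inv_a, wg_inv_g]
    show 1 * (dl R (p : G ⧸ R) x - dl R ((1 : G) : G ⧸ R) x) +
      (-(0 * (dl R (p : G ⧸ R) (p • (p⁻¹ • x)) - dl R ((1 : G) : G ⧸ R) (p • (p⁻¹ • x)))) +
      1 * (dl R (p : G ⧸ R) ((p⁻¹)⁻¹ • (p⁻¹ • x)) - dl R ((1 : G) : G ⧸ R) ((p⁻¹)⁻¹ • (p⁻¹ • x)))) =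
      2 * (dl R (p : G ⧸ R) x - dl R ((1 : G) : G ⧸ R) x)
    rw [inv_inv, smul_inv_smul]
    ring
  · show p * ((p)⁻¹ * p) = p
    group

theorem dl_coe (p q : G) : dl R (p : G ⧸ R) (q : G ⧸ R) = if q⁻¹ * p ∈ R then 1 else 0 := by
  unfold dl
  by_cases h : q⁻¹ * p ∈ R
  · rw [if_pos h, if_pos (QuotientGroup.eq.2 h)]
  · rw [if_neg h, if_neg (fun h' => h (QuotientGroup.eq.1 h'))]

/-- equality of two values -/
theorem fe_inj (i k : ZMod 4) (p q : G) (h : fe R i p = fe R k q) : p = q ∧ (p ∈ R ∨ i = k) := by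
  have hg : p = q := congrArg WG.g h
  subst hg
  refine ⟨rfl, ?_⟩
  by_cases hp : p ∈ R
  · exact Or.inl hp
  · right
    have h1 := congrFun (congrArg WG.a h) ((1 : G) : G ⧸ R)
    have e1 : dl R (p : G ⧸ R) ((1 : G) : G ⧸ R) = 0 := by
          rw [dl_coe]; rw [if_neg]; simpa using hp
    have e2 : dl R ((1 : G) : G ⧸ R) ((1 : G) : G ⧸ R) = 1 := by
          rw [dl_coe]; rw [if_pos]; simp [R.one_mem]
    change i * (dl R (p : G ⧸ R) _ - dl R ((1 : G) : G ⧸ R) _) =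
      k * (dl R (p : G ⧸ R) _ - dl R ((1 : G) : G ⧸ R) _) at h1
    rw [e1, e2] at h1
    linear_combination -h1

theorem fe_root (i k : ZMod 4) (p : G) (hp : p ∈ R) : fe R i p = fe R k p := by
  refine WG.ext (funext fun x => ?_) rfl
  have : (p : G ⧸ R) = ((1 : G) : G ⧸ R) := by
    rw [QuotientGroup.eq]; simpa using R.inv_mem hp
  show i * (dl R (p : G ⧸ R) x - _) = k * (dl R (p : G ⧸ R) x - _)
  rw [this, sub_self, mul_zero, mul_zero]

end

section
variable {G : Type} [Group G] [Finite G] (R S : Subgroup G)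

/-- the sum of `a` over the cosets contained in `g S` -/
noncomputable def sg (a : G ⧸ R → ZMod 4) (g : G) : ZMod 4 :=
  ∑ᶠ x : G ⧸ R, if (∃ s ∈ S, x = ((g * s : G) : G ⧸ R)) then a x else 0

variable {R S}

theorem sg_add (a b : G ⧸ R → ZMod 4) (g : G) :
    sg R S (fun x => a x + b x) g = sg R S a g + sg R S b g := by
  unfold sg
  rw [← finsum_add_distrib (Set.toFinite _) (Set.toFinite _)]
  refine finsum_congr (fun x => ?_)
  split_ifs <;> simp

theorem sg_smul (c : ZMod 4) (a : G ⧸ R → ZMod 4) (g : G) :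
    sg R S (fun x => c * a x) g = c * sg R S a g := by
  unfold sg
  rw [mul_finsum' _ _ (Set.toFinite _)]
  refine finsum_congr (fun x => ?_)
  split_ifs <;> simp

theorem sg_act (a : G ⧸ R → ZMod 4) (p g : G) :
    sg R S (fun x => a (p⁻¹ • x)) g = sg R S a (p⁻¹ * g) := by
  unfold sg
  rw [← finsum_comp_equiv (MulAction.toPerm p⁻¹ : Equiv.Perm (G ⧸ R)) (f := fun x : G ⧸ R =>
    if (∃ s ∈ S, x = ((p⁻¹ * g * s : G) : G ⧸ R)) then a x else 0)]
  refine finsum_congr (fun x => ?_)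
  have : (∃ s ∈ S, x = ((g * s : G) : G ⧸ R)) ↔
      (∃ s ∈ S, (MulAction.toPerm p⁻¹ : Equiv.Perm (G ⧸ R)) x = ((p⁻¹ * g * s : G) : G ⧸ R)) := by
    refine exists_congr fun s => and_congr_right fun _ => ?_
    show _ ↔ p⁻¹ • x = _
    rw [inv_smul_eq_iff]
    have : p • ((p⁻¹ * g * s : G) : G ⧸ R) = ((g * s : G) : G ⧸ R) := by
      show ((p * (p⁻¹ * g * s) : G) : G ⧸ R) = _
      congr 1; group
    rw [this]
  by_cases h : (∃ s ∈ S, x = ((g * s : G) : G ⧸ R))
  · rw [if_pos h, if_pos (this.1 h)]; rfl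
  · rw [if_neg h, if_neg (fun h' => h (this.2 h'))]

theorem sg_dl (hRS : R ≤ S) (p g : G) :
    sg R S (fun x => dl R (p : G ⧸ R) x) g = if g⁻¹ * p ∈ S then 1 else 0 := by
  unfold sg
  have h1 : ∀ x : G ⧸ R, x ≠ (p : G ⧸ R) →
      (if (∃ s ∈ S, x = ((g * s : G) : G ⧸ R)) then dl R (p : G ⧸ R) x else 0) = 0 := by
    intro x hx
    split_ifs
    · unfold dl; rw [if_neg hx]
    · rfl
  rw [finsum_eq_single _ _ h1]
  have h2 : (∃ s ∈ S, (p : G ⧸ R) = ((g * s : G) : G ⧸ R)) ↔ g⁻¹ * p ∈ S := by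
    constructor
    · rintro ⟨s, hs, h⟩
      rw [QuotientGroup.eq] at h
      have h3 := hRS h
      have : g⁻¹ * p = s * (p⁻¹ * (g * s))⁻¹ := by group
      rw [this]
      exact S.mul_mem hs (S.inv_mem h3)
    · intro h
      exact ⟨g⁻¹ * p, h, by congr 1; group⟩
  by_cases h : g⁻¹ * p ∈ S
  · rw [if_pos (h2.2 h), if_pos h]; unfold dl; rw [if_pos rfl]
  · rw [if_neg (fun h' => h (h2.1 h')), if_neg h]

/-- test subgroups -/
def KS (R S : Subgroup G) (c : ZMod 4) : Subgroup (WG G (G ⧸ R)) where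
  carrier := {u | ∀ g, c * sg R S u.a g = 0}
  one_mem' := by
    intro g
    have : sg R S (1 : WG G (G ⧸ R)).a g = 0 := by
      unfold sg
      have : ∀ x : G ⧸ R, (if (∃ s ∈ S, x = ((g * s : G) : G ⧸ R)) then
          (1 : WG G (G ⧸ R)).a x else 0) = 0 := by
        intro x; split_ifs <;> rfl
      simp only [this, finsum_zero]
    rw [this, mul_zero]
  mul_mem' := by
    intro u v hu hv g
    have : sg R S (u * v).a g = sg R S u.a g + sg R S v.a (u.g⁻¹ * g) := by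
      rw [← sg_act, ← sg_add]; rfl
    rw [this, mul_add, hu g, hv _, add_zero]
  inv_mem' := by
    intro u hu g
    have : sg R S (u⁻¹).a g = - sg R S u.a (u.g * g) := by
      have h1 := sg_act (S := S) (fun x => - u.a x) (u.g⁻¹) g
      rw [inv_inv] at h1
      have h2 : sg R S (fun x => - u.a x) (u.g * g) = (-1) * sg R S u.a (u.g * g) := by
        rw [← sg_smul]; congr 1; funext x; ring
      have h3 : (u⁻¹).a = fun x => - u.a (u.g • x) := rfl
      rw [h3, h1, h2]; ring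
    rw [this, mul_neg, hu _, neg_zero]

theorem fe_mem_KS (hRS : R ≤ S) (c i : ZMod 4) (p : G) :
    fe R i p ∈ KS R S c ↔ p ∈ S ∨ c * i = 0 := by
  have key : ∀ g, sg R S (fe R i p).a g =
      i * ((if g⁻¹ * p ∈ S then 1 else 0) - (if g⁻¹ ∈ S then 1 else 0)) := by
    intro g
    have e : (fe R i p).a = fun x => (i * dl R (p : G ⧸ R) x) +
        ((-i) * dl R ((1 : G) : G ⧸ R) x) := by
      funext x
      show i * (dl R (p : G ⧸ R) x - dl R ((1 : G) : G ⧸ R) x) = _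
      ring
    rw [e, sg_add, sg_smul, sg_smul, sg_dl hRS, sg_dl hRS, mul_one]
    ring
  constructor
  · intro h
    by_cases hp : p ∈ S
    · exact Or.inl hp
    · right
      have h1 : c * sg R S (fe R i p).a 1 = 0 := h 1
      rw [key 1, inv_one, one_mul, if_neg hp, if_pos S.one_mem] at h1
      linear_combination -h1
  · intro h g
    rw [key g]
    rcases h with h | h
    · have : g⁻¹ * p ∈ S ↔ g⁻¹ ∈ S := S.mul_mem_cancel_right h
      by_cases hg : g⁻¹ ∈ S
      · rw [if_pos (this.2 hg), if_pos hg, sub_self, mul_zero, mul_zero]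
      · rw [if_neg (fun h' => hg (this.1 h')), if_neg hg, sub_self, mul_zero, mul_zero]
    · rw [← mul_assoc, h, zero_mul]

end

end CAY
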