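import Pool.Agent.H77.CAY.Amg

/-! The amalgamation of three isomorphic conditions: the theorem. -/

set_option autoImplicit false
set_option linter.unusedVariables false

namespace CAY

section
variable {G Λ : Type} [Group G] [Finite G] [LinearOrder Λ] {f : G → Λ}

theorem low_pow (hf : ∀ x y, f (x * y) ≤ max (f x) (f y)) (x : G) (k : ℕ) :
    f (x ^ (k + 1)) ≤ f x := by
  induction k with
  | zero => simp
  | succ k ih =>
    rw [pow_succ]
    exact (hf _ _).trans (max_le ih le_rfl)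

theorem low_inv (hf : ∀ x y, f (x * y) ≤ max (f x) (f y)) (x : G) : f x⁻¹ ≤ f x := by
  have h := orderOf_pos x
  have e : x⁻¹ = x ^ ((2 * orderOf x - 2) + 1) := by
    have : (2 * orderOf x - 2) + 1 + 1 = 2 * orderOf x := by omega
    rw [eq_comm, ← mul_eq_one_iff_eq_inv, ← pow_succ, this, mul_comm, pow_mul, pow_orderOf_eq_one,
      one_pow]
  rw [e]
  exact low_pow hf x _

/-- the elements of low level form a subgroup -/
def low (f : G → Λ) (hf : ∀ x y, f (x * y) ≤ max (f x) (f y)) (l : Λ) (h1 : f 1 ≤ l) :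
    Subgroup G where
  carrier := {x | f x ≤ l}
  one_mem' := h1
  mul_mem' := fun {x y} hx hy => (hf x y).trans (max_le hx hy)
  inv_mem' := fun {x} hx => (low_inv hf x).trans hx

/-- elements with trivial first component -/
def ZS (R S : Subgroup G) : Subgroup (WG G (G ⧸ R)) where
  carrier := {u | (∀ x, u.a x = 0) ∧ u.g ∈ S}
  one_mem' := ⟨fun x => rfl, S.one_mem⟩
  mul_mem' := fun {u v} hu hv => ⟨fun x => by rw [wg_mul_a, hu.1, hv.1, add_zero],
    S.mul_mem hu.2 hv.2⟩
  inv_mem' := fun {u} hu => ⟨fun x => by rw [wg_inv_a, hu.1, neg_zero], S.inv_mem hu.2⟩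

end

/-- the three coefficients -/
def cf : Fin 3 → ZMod 4 := ![0, 1, 2]

theorem cf_inj (i k : Fin 3) (h : cf i = cf k) : i = k := by
  revert i k; decide

theorem amg : AMGStmt := by
  classical
  intro Ω Λ _ _ B p e r he0 hbij hmul hfix hr hdisj hs0 hs02 hs01 hs21
  let G := Gp (p 0)
  let E : Fin 3 → G → Ω := fun i x => e i x.1
  have hE : ∀ i x, E i x ∈ (p i).dom := fun i x => (hbij i).mapsTo x.2
  have hE0 : ∀ x : G, E 0 x = x.1 := fun x => by show e 0 x.1 = x.1; rw [he0]; rfl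
  have hEm : ∀ i (x y : G), E i (x * y) = (p i).mul (E i x) (E i y) :=
    fun i x y => hmul i x.1 x.2 y.1 y.2
  have hEi : ∀ i (x y : G), E i x = E i y → x = y :=
    fun i x y h => Subtype.ext ((hbij i).injOn x.2 y.2 h)
  have hEs : ∀ i y, y ∈ (p i).dom → ∃ x, E i x = y := by
    intro i y hy
    obtain ⟨x, hx, h⟩ := (hbij i).surjOn hy
    exact ⟨⟨x, hx⟩, h⟩
  have hEl : ∀ i (x y : G), B.lev (E i (x * y)) ≤ max (B.lev (E i x)) (B.lev (E i y)) := by
    intro i x y
    rw [hEm]; exact (p i).lev_mul _ (hE i x) _ (hE i y)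
  have her : B.e ∈ r := hdisj 0 1 (by decide) _ (p 0).one_mem (p 1).one_mem
  have hE1 : ∀ i, E i 1 = B.e := fun i => hfix i B.e her
  let R : Subgroup G :=
    { carrier := {x | x.1 ∈ r}
      one_mem' := her
      mul_mem' := by
        intro x y hx hy
        by_contra hc
        have h1 := hs0 x.1 hx (x * y).1 (x * y).2 hc
        have h2 := hs0 y.1 hy (x * y).1 (x * y).2 hc
        have h3 := (p 0).lev_mul _ x.2 _ y.2
        exact absurd (max_lt h1 h2) (not_lt.2 h3)
      inv_mem' := by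
        intro x hx
        by_contra hc
        have h1 := hs0 x.1 hx (x⁻¹).1 (x⁻¹).2 hc
        have h2 := low_inv (f := fun x : G => B.lev x.1) (fun a b => (p 0).lev_mul _ a.2 _ b.2) x
        exact absurd h1 (not_lt.2 h2) }
  have hR : ∀ x : G, x ∈ R ↔ x.1 ∈ r := fun x => Iff.rfl
  have hRE : ∀ i (x : G), x ∈ R → E i x = x.1 := fun i x hx => hfix i x.1 hx
  have hER : ∀ i (x : G), E i x ∈ r → x ∈ R := by
    intro i x hx
    have h1 : E i x ∈ (p 0).dom := hr 0 hx
    have h2 : E i ⟨E i x, h1⟩ = E i x := hfix i _ hx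
    have h3 := hEi i _ _ h2
    show x.1 ∈ r
    rw [← h3]; exact hx
  let Q := WG G (G ⧸ R)
  let ff : Fin 3 → G → Q := fun i x => fe R (cf i) x
  have hff : ∀ i k (x y : G), ff i x = ff k y → x = y ∧ (x ∈ R ∨ i = k) := by
    intro i k x y h
    obtain ⟨h1, h2⟩ := fe_inj R _ _ _ _ h
    exact ⟨h1, h2.imp id (cf_inj i k)⟩
  have hffE : ∀ i k (x y : G), ff i x = ff k y → E i x = E k y := by
    intro i k x y h
    obtain ⟨rfl, h2⟩ := hff i k x y h
    rcases h2 with h2 | rfl
    · rw [hRE i x h2, hRE k x h2]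
    · rfl
  have hEff : ∀ i k (x y : G), E i x = E k y → ff i x = ff k y := by
    intro i k x y h
    by_cases hik : i = k
    · subst hik; rw [hEi i x y h]
    · have h1 : E i x ∈ r := hdisj i k hik _ (hE i x) (by rw [h]; exact hE k y)
      have h2 : E k y ∈ r := by rw [← h]; exact h1
      have h3 := hER i x h1
      have h4 := hER k y h2
      have h5 : x = y := by
        apply Subtype.ext
        rw [← hRE i x h3, ← hRE k y h4, h]
      subst h5
      exact fe_root R _ _ _ h3
  let gen : Λ → Set Q := fun l => {u | ∃ i x, u = ff i x ∧ B.lev (E i x) ≤ l}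
  -- the claim
  have claim : ∀ l, B.lev B.e ≤ l → ∀ i (x : G), ff i x ∈ Subgroup.closure (gen l) →
      B.lev (E i x) ≤ l := by
    intro l hl i x hx
    by_cases hA1 : ∃ y ∈ (p 1).dom, y ∉ r ∧ B.lev y ≤ l
    · obtain ⟨y, hy, hyr, hyl⟩ := hA1
      have h0 : ∀ z : G, B.lev z.1 ≤ l := fun z => ((hs01 z.1 z.2 y hy hyr).le).trans hyl
      have h2 : ∀ z : G, B.lev (E 2 z) ≤ l := fun z => ((hs21 _ (hE 2 z) y hy hyr).le).trans hyl
      let S : Subgroup G := low (fun z => B.lev (E 1 z)) (hEl 1) l (by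
        show B.lev (E 1 1) ≤ l
        rw [hE1]; exact hl)
      have hRS : R ≤ S := fun z hz => by
        show B.lev (E 1 z) ≤ l
        rw [hRE 1 z hz]; exact h0 z
      have hle : Subgroup.closure (gen l) ≤ KS R S 2 := by
        rw [Subgroup.closure_le]
        rintro _ ⟨k, z, rfl, hz⟩
        refine (fe_mem_KS hRS _ _ _).2 ?_
        fin_cases k
        · right; decide
        · left; exact hz
        · right; decide
      have h3 := (fe_mem_KS hRS _ _ _).1 (hle hx)
      fin_cases i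
      · show B.lev (E 0 x) ≤ l
        rw [hE0]; exact h0 x
      · rcases h3 with h3 | h3
        · exact h3
        · exact absurd h3 (by decide)
      · exact h2 x
    by_cases hA2 : ∃ y ∈ (p 2).dom, y ∉ r ∧ B.lev y ≤ l
    · obtain ⟨y, hy, hyr, hyl⟩ := hA2
      have h0 : ∀ z : G, B.lev z.1 ≤ l := fun z => ((hs02 z.1 z.2 y hy hyr).le).trans hyl
      let S : Subgroup G := low (fun z => B.lev (E 2 z)) (hEl 2) l (by
        show B.lev (E 2 1) ≤ l
        rw [hE1]; exact hl)
      have hRS : R ≤ S := fun z hz => by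
        show B.lev (E 2 z) ≤ l
        rw [hRE 2 z hz]; exact h0 z
      have h1r : ∀ z : G, B.lev (E 1 z) ≤ l → z ∈ R := by
        intro z hz
        apply hER 1
        by_contra hc
        exact hA1 ⟨_, hE 1 z, hc, hz⟩
      have hle : Subgroup.closure (gen l) ≤ KS R S 1 ⊓ KS R R 2 := by
        rw [Subgroup.closure_le]
        rintro _ ⟨k, z, rfl, hz⟩
        refine ⟨(fe_mem_KS hRS _ _ _).2 ?_, (fe_mem_KS le_rfl _ _ _).2 ?_⟩
        · fin_cases k
          · right; decide
          · left; exact hRS (h1r z hz)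
          · left; exact hz
        · fin_cases k
          · right; decide
          · left; exact h1r z hz
          · right; decide
      obtain ⟨h3, h4⟩ := hle hx
      have h3 := (fe_mem_KS hRS _ _ _).1 h3
      have h4 := (fe_mem_KS le_rfl _ _ _).1 h4
      fin_cases i
      · show B.lev (E 0 x) ≤ l
        rw [hE0]; exact h0 x
      · rcases h4 with h4 | h4
        · show B.lev (E 1 x) ≤ l
          rw [hRE 1 x h4]; exact h0 x
        · exact absurd h4 (by decide)
      · rcases h3 with h3 | h3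
        · exact h3
        · exact absurd h3 (by decide)
    · let S : Subgroup G := low (fun z => B.lev (E 0 z)) (hEl 0) l (by
        show B.lev (E 0 1) ≤ l
        rw [hE1]; exact hl)
      have hir : ∀ k (z : G), k ≠ 0 → B.lev (E k z) ≤ l → z ∈ R := by
        intro k z hk hz
        apply hER k
        by_contra hc
        fin_cases k
        · exact hk rfl
        · exact hA1 ⟨_, hE 1 z, hc, hz⟩
        · exact hA2 ⟨_, hE 2 z, hc, hz⟩
      have hz0 : ∀ z : G, ∀ t, (ff 0 z).a t = 0 := by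
        intro z t
        show (cf 0) * _ = 0
        have : cf 0 = 0 := rfl
        rw [this, zero_mul]
      have hle : Subgroup.closure (gen l) ≤ ZS R S := by
        rw [Subgroup.closure_le]
        rintro _ ⟨k, z, rfl, hz⟩
        by_cases hk : k = 0
        · subst hk
          exact ⟨hz0 z, hz⟩
        · have h1 := hir k z hk hz
          have h2 : ff k z = ff 0 z := fe_root R _ _ _ h1
          rw [h2]
          refine ⟨hz0 z, ?_⟩
          show B.lev (E 0 z) ≤ l
          rw [hRE 0 z h1, ← hRE k z h1]; exact hz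
      obtain ⟨h3, h4⟩ := hle hx
      have h5 : ff i x = ff 0 x := WG.ext (funext fun t => by rw [h3 t, hz0 x t]) rfl
      have h6 : B.lev (E 0 x) ≤ l := h4
      rw [hffE i 0 x x h5]; exact h6
  -- the top level
  obtain ⟨⟨i0, x0⟩, htop⟩ := Finite.exists_max (fun t : Fin 3 × G => B.lev (E t.1 t.2))
  set lt : Λ := B.lev (E i0 x0) with hlt
  have htop' : ∀ i x, B.lev (E i x) ≤ lt := fun i x => htop (i, x)
  have helt : B.lev B.e ≤ lt := B.e_min _
  -- the rank
  let Pr : Q → Λ → Prop := fun u l => B.lev B.e ≤ l ∧ (lt ≤ l ∨ u ∈ Subgroup.closure (gen l))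
  have hPr : ∀ u, ∃ l, Pr u l := fun u => ⟨lt, helt, Or.inl le_rfl⟩
  have hwf : WellFounded (fun a b : Λ => a < b) := wellFounded_lt
  let rk : Q → Λ := fun u => hwf.min {l | Pr u l} (hPr u)
  have hrk1 : ∀ u, Pr u (rk u) := fun u => hwf.min_mem {l | Pr u l} (hPr u)
  have hrk2 : ∀ u l, Pr u l → rk u ≤ l := fun u l h => not_lt.1 (hwf.not_lt_min {l | Pr u l} h)
  have hgm : ∀ l l', l ≤ l' → Subgroup.closure (gen l) ≤ Subgroup.closure (gen l') := by
    intro l l' hll
    apply Subgroup.closure_mono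
    rintro u ⟨i, x, h1, h2⟩
    exact ⟨i, x, h1, h2.trans hll⟩
  have hmono : ∀ u l l', l ≤ l' → Pr u l → Pr u l' := by
    rintro u l l' hll ⟨h1, h2⟩
    refine ⟨h1.trans hll, ?_⟩
    rcases h2 with h2 | h2
    · exact Or.inl (h2.trans hll)
    · exact Or.inr (hgm l l' hll h2)
  have hrkm : ∀ u v, rk (u * v) ≤ max (rk u) (rk v) := by
    intro u v
    apply hrk2
    obtain ⟨h1, h2⟩ := hmono u _ (max (rk u) (rk v)) (le_max_left _ _) (hrk1 u)
    obtain ⟨h3, h4⟩ := hmono v _ (max (rk u) (rk v)) (le_max_right _ _) (hrk1 v)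
    refine ⟨h1, ?_⟩
    rcases h2 with h2 | h2
    · exact Or.inl h2
    rcases h4 with h4 | h4
    · exact Or.inl h4
    exact Or.inr (Subgroup.mul_mem _ h2 h4)
  have hrkff : ∀ i x, rk (ff i x) = B.lev (E i x) := by
    intro i x
    apply le_antisymm
    · apply hrk2
      exact ⟨B.e_min _, Or.inr (Subgroup.subset_closure ⟨i, x, rfl, le_rfl⟩)⟩
    · obtain ⟨h1, h2⟩ := hrk1 (ff i x)
      rcases h2 with h2 | h2
      · exact (htop' i x).trans h2
      · exact claim _ h1 i x h2
  -- placed elements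
  let Sg : Set Q := {u | ∃ t : Fin 3 × G, u = ff t.1 t.2}
  let g : Q → Ω := fun u => if h : ∃ t : Fin 3 × G, u = ff t.1 t.2 then
    E h.choose.1 h.choose.2 else B.e
  have hg : ∀ i x, g (ff i x) = E i x := by
    intro i x
    have h : ∃ t : Fin 3 × G, ff i x = ff t.1 t.2 := ⟨(i, x), rfl⟩
    show (if h : ∃ t : Fin 3 × G, ff i x = ff t.1 t.2 then E h.choose.1 h.choose.2 else B.e) = _
    rw [dif_pos h]
    exact (hffE _ _ _ _ h.choose_spec).symm
  have hff1 : ff 0 1 = 1 := fe_one R _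
  obtain ⟨q, j, hj, hjS, hjd, hjm⟩ := transport (B := B) Q rk hrkm Sg g (by
      rintro _ ⟨⟨i, x⟩, rfl⟩ _ ⟨⟨k, y⟩, rfl⟩ h
      rw [hg, hg] at h
      exact hEff _ _ _ _ h) (by
      rintro _ ⟨⟨i, x⟩, rfl⟩
      rw [hg, hrkff]) ⟨(0, 1), hff1.symm⟩ (by rw [← hff1, hg, hE1])
  have hjE : ∀ i x, j (ff i x) = E i x := fun i x => by
    rw [hjS _ ⟨(i, x), rfl⟩, hg]
  refine ⟨q, fun i => ⟨?_, ?_⟩, ?_⟩
  · intro y hy
    obtain ⟨x, rfl⟩ := hEs i y hy
    rw [← hjE]; exact hjd _
  · intro y hy y' hy'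
    obtain ⟨x, rfl⟩ := hEs i y hy
    obtain ⟨x', rfl⟩ := hEs i y' hy'
    have h1 : (p i).mul (E i x) (E i x') = E i (x * x') := (hEm i x x').symm
    rw [h1, ← hjE i x, ← hjE i x', hjm, ← hjE i (x * x')]
    congr 1
    exact (fe_mul R _ _ _).symm
  · intro x hx
    let X : G := ⟨x, hx⟩
    have hpr := fe_prog R X
    have e0 : j (ff 0 X) = x := by rw [hjE, hE0]
    have e1 : j (ff 1 X) = e 1 x := hjE 1 X
    have e2 : j (ff 2 X) = e 2 x := hjE 2 X
    refine ⟨j ((ff 0 X)⁻¹ * ff 1 X), hjd _, ?_, ?_⟩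
    · rw [← e1]
      conv_lhs => rw [← e0]
      rw [hjm]
      congr 1
      exact hpr.1
    · rw [← e1, ← e2, hjm]
      congr 1
      exact hpr.2

end CAY
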