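import Pool.Agent.H77.CAY.Defs
import Pool.Agent.H64.CpImages

/-! The catching property. -/

set_option autoImplicit false
set_option linter.unusedVariables false

namespace CAY

open Pool.Agent.H64.CpImages

section
variable {Ω : Type}

/-- members of a delta system which meet a countable set outside the root -/
theorem ds_low {S : Set Ω} {F : Ω → Finset Ω} {r : Finset Ω}
    (hS : ∀ a ∈ S, ∀ b ∈ S, a ≠ b → ∀ x, x ∈ F a → x ∈ F b → x ∈ r) {T : Set Ω}
    (hT : T.Countable) : {a | a ∈ S ∧ ∃ y ∈ F a, y ∉ r ∧ y ∈ T}.Countable := by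
  classical
  let f : Ω → Ω := fun a => if h : ∃ y ∈ F a, y ∉ r ∧ y ∈ T then h.choose else a
  have hf : ∀ a, (∃ y ∈ F a, y ∉ r ∧ y ∈ T) → f a ∈ F a ∧ f a ∉ r ∧ f a ∈ T := by
    intro a h
    show (if h : ∃ y ∈ F a, y ∉ r ∧ y ∈ T then h.choose else a) ∈ F a ∧ _ ∧ _
    simp only [f]
    rw [dif_pos h]
    exact h.choose_spec
  refine Set.MapsTo.countable_of_injOn (f := f) (t := T) ?_ ?_ hT
  · rintro a ⟨_, h⟩
    exact (hf a h).2.2
  · rintro a ⟨ha, h⟩ b ⟨hb, h'⟩ hab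
    by_contra hne
    have h1 := hf a h
    have h2 := hf b h'
    rw [← hab] at h2
    exact h1.2.1 (hS a ha b hb hne _ h1.1 h2.1)

open Classical in
/-- position of an element -/
noncomputable def ix (s : Finset Ω) (x : Ω) : ℕ := if h : x ∈ s then (s.equivFin ⟨x, h⟩ : ℕ) else 0

open Classical in
/-- element at a position -/
noncomputable def en (s : Finset Ω) (d : Ω) (n : ℕ) : Ω :=
  if h : n < s.card then (s.equivFin.symm ⟨n, h⟩).1 else d

theorem ix_lt {s : Finset Ω} {x : Ω} (h : x ∈ s) : ix s x < s.card := by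
  unfold ix; rw [dif_pos h]; exact (s.equivFin ⟨x, h⟩).2

theorem ix_inj {s : Finset Ω} {x y : Ω} (hx : x ∈ s) (hy : y ∈ s) (h : ix s x = ix s y) :
    x = y := by
  unfold ix at h
  rw [dif_pos hx, dif_pos hy] at h
  have := s.equivFin.injective (Fin.ext h)
  exact congrArg Subtype.val this

theorem en_mem {s : Finset Ω} {d : Ω} {n : ℕ} (h : n < s.card) : en s d n ∈ s := by
  unfold en; rw [dif_pos h]; exact (s.equivFin.symm ⟨n, h⟩).2

theorem ix_en {s : Finset Ω} {d : Ω} {n : ℕ} (h : n < s.card) : ix s (en s d n) = n := by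
  unfold ix
  rw [dif_pos (en_mem h)]
  have : (⟨en s d n, en_mem h⟩ : {x // x ∈ s}) = s.equivFin.symm ⟨n, h⟩ := by
    apply Subtype.ext
    show en s d n = _
    unfold en; rw [dif_pos h]
  rw [this, Equiv.apply_symm_apply]

end

theorem cat (hA : AMGStmt) : CATStmt := by
  classical
  intro Ω Λ _ _ B _ hΩ Er hEr A hAc p v hv
  -- the delta system
  obtain ⟨S1, r, hS1A, hS1c, hS1⟩ := delta_system A hAc (fun α => (p α).dom)
  have hS1' : ∀ a ∈ S1, ∀ b ∈ S1, a ≠ b → ∀ x, x ∈ (p a).dom → x ∈ (p b).dom → x ∈ r := by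
    intro a ha b hb hab x hx hy
    have h1 : (p a).dom ∩ (p b).dom = r := hS1 a ha b hb hab
    rw [← h1]; exact Finset.mem_inter.2 ⟨hx, hy⟩
  have hr1 : ∀ a ∈ S1, r ⊆ (p a).dom := by
    intro a ha
    have : ∃ b ∈ S1, a ≠ b := by
      by_contra hc
      push Not at hc
      exact hS1c ((Set.countable_singleton a).mono (fun b hb => (hc b hb).symm))
    obtain ⟨b, hb, hab⟩ := this
    have h1 : (p a).dom ∩ (p b).dom = r := hS1 a ha b hb hab
    rw [← h1]; exact Finset.inter_subset_left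
  have her : B.e ∈ r := by
    have h2 : S1.Nontrivial := by
      by_contra hc
      exact hS1c (Set.not_nontrivial_iff.1 hc).countable
    obtain ⟨a, ha, b, hb, hab⟩ := h2
    exact hS1' a ha b hb hab _ (p a).one_mem (p b).one_mem
  obtain ⟨x0, hx0, hmax⟩ := Finset.exists_max_image r B.lev ⟨_, her⟩
  set S2 : Set Ω := {a | a ∈ S1 ∧ ∀ y ∈ (p a).dom, y ∉ r → B.lev x0 < B.lev y} with hS2
  have hS2c : ¬ S2.Countable := by
    intro hc
    apply hS1c
    refine (hc.union (ds_low hS1' (B.cnt (B.lev x0)))).mono (fun a ha => ?_)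
    by_cases h : ∀ y ∈ (p a).dom, y ∉ r → B.lev x0 < B.lev y
    · exact Or.inl ⟨ha, h⟩
    · push Not at h
      exact Or.inr ⟨ha, h⟩
  -- the codes
  let code : Ω → ℕ × Finset (ℕ × ℕ × ℕ) × ℕ × ({x // x ∈ r} → ℕ) := fun a =>
    ((p a).dom.card, ((p a).dom ×ˢ (p a).dom).image (fun t =>
      (ix (p a).dom t.1, ix (p a).dom t.2, ix (p a).dom ((p a).mul t.1 t.2))),
      ix (p a).dom (v a), fun x => ix (p a).dom x.1)
  obtain ⟨k, hk⟩ := exists_uncountable_fibre S2 hS2c code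
  set S3 : Set Ω := {a | a ∈ S2 ∧ code a = k} with hS3
  let tr : Ω → Ω → Ω → Ω := fun a b x => en (p b).dom B.e (ix (p a).dom x)
  have hcd : ∀ a ∈ S3, ∀ b ∈ S3, code a = code b := fun a ha b hb => ha.2.trans hb.2.symm
  have hcard : ∀ a ∈ S3, ∀ b ∈ S3, (p a).dom.card = (p b).dom.card :=
    fun a ha b hb => congrArg Prod.fst (hcd a ha b hb)
  have htab : ∀ a ∈ S3, ∀ b ∈ S3, _ = _ := fun a ha b hb =>
    congrArg (fun z => z.2.1) (hcd a ha b hb)
  have hpos : ∀ a ∈ S3, ∀ b ∈ S3, ix (p a).dom (v a) = ix (p b).dom (v b) := fun a ha b hb =>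
    congrArg (fun z => z.2.2.1) (hcd a ha b hb)
  have hroot : ∀ a ∈ S3, ∀ b ∈ S3, ∀ x ∈ r, ix (p a).dom x = ix (p b).dom x :=
    fun a ha b hb x hx => congrFun (congrArg (fun z => z.2.2.2) (hcd a ha b hb)) ⟨x, hx⟩
  have htr1 : ∀ a ∈ S3, ∀ b ∈ S3, ∀ x ∈ (p a).dom, tr a b x ∈ (p b).dom ∧
      ix (p b).dom (tr a b x) = ix (p a).dom x := by
    intro a ha b hb x hx
    have h := ix_lt hx
    rw [hcard a ha b hb] at h
    exact ⟨en_mem h, ix_en h⟩
  have htr2 : ∀ a ∈ S3, ∀ b ∈ S3, ∀ x ∈ (p a).dom, ∀ y ∈ (p b).dom,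
      ix (p a).dom x = ix (p b).dom y → tr a b x = y := by
    intro a ha b hb x hx y hy h
    obtain ⟨h1, h2⟩ := htr1 a ha b hb x hx
    exact ix_inj h1 hy (h2.trans h)
  have hbij : ∀ a ∈ S3, ∀ b ∈ S3, Set.BijOn (tr a b) (p a).dom (p b).dom := by
    intro a ha b hb
    refine ⟨fun x hx => (htr1 a ha b hb x hx).1, fun x hx y hy h => ?_, fun y hy => ?_⟩
    · have h1 := (htr1 a ha b hb x hx).2
      have h2 := (htr1 a ha b hb y hy).2
      rw [h] at h1
      exact ix_inj hx hy (h1.symm.trans h2)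
    · have h1 := htr1 b hb a ha y hy
      exact ⟨tr b a y, h1.1, htr2 a ha b hb _ h1.1 y hy h1.2⟩
  have hmul : ∀ a ∈ S3, ∀ b ∈ S3, ∀ x ∈ (p a).dom, ∀ y ∈ (p a).dom,
      tr a b ((p a).mul x y) = (p b).mul (tr a b x) (tr a b y) := by
    intro a ha b hb x hx y hy
    have h1 : (ix (p a).dom x, ix (p a).dom y, ix (p a).dom ((p a).mul x y)) ∈
        ((p a).dom ×ˢ (p a).dom).image (fun t =>
      (ix (p a).dom t.1, ix (p a).dom t.2, ix (p a).dom ((p a).mul t.1 t.2))) :=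
      Finset.mem_image.2 ⟨(x, y), Finset.mem_product.2 ⟨hx, hy⟩, rfl⟩
    have h2 : ((p a).dom ×ˢ (p a).dom).image (fun t =>
      (ix (p a).dom t.1, ix (p a).dom t.2, ix (p a).dom ((p a).mul t.1 t.2))) =
      ((p b).dom ×ˢ (p b).dom).image (fun t =>
      (ix (p b).dom t.1, ix (p b).dom t.2, ix (p b).dom ((p b).mul t.1 t.2))) :=
      htab a ha b hb
    rw [h2] at h1
    obtain ⟨⟨x', y'⟩, h3, h4⟩ := Finset.mem_image.1 h1
    obtain ⟨hx', hy'⟩ := Finset.mem_product.1 h3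
    obtain ⟨h5, h6⟩ := Prod.mk.inj h4
    obtain ⟨h6, h7⟩ := Prod.mk.inj h6
    have e1 : tr a b x = x' := htr2 a ha b hb x hx x' hx' h5.symm
    have e2 : tr a b y = y' := htr2 a ha b hb y hy y' hy' h6.symm
    rw [e1, e2]
    exact htr2 a ha b hb _ ((p a).mul_mem x hx y hy) _ ((p b).mul_mem x' hx' y' hy') h7.symm
  have hfix : ∀ a ∈ S3, ∀ b ∈ S3, ∀ x ∈ r, tr a b x = x := fun a ha b hb x hx =>
    htr2 a ha b hb x (hr1 a ha.1.1 hx) x (hr1 b hb.1.1 hx) (hroot a ha b hb x hx)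
  have hval : ∀ a ∈ S3, ∀ b ∈ S3, tr a b (v a) = v b := fun a ha b hb =>
    htr2 a ha b hb _ (hv a (hS1A ha.1.1)) _ (hv b (hS1A hb.1.1)) (hpos a ha b hb)
  -- the separated set
  let sep : Ω → Ω → Prop := fun a b => ∀ x ∈ (p a).dom, ∀ y ∈ (p b).dom, y ∉ r →
    B.lev x < B.lev y
  obtain ⟨M, hM⟩ := zorn_subset {M : Set Ω | M ⊆ S3 ∧ ∀ a ∈ M, ∀ b ∈ M, a < b → sep a b} (by
    intro c hc hchain
    refine ⟨⋃₀ c, ⟨Set.sUnion_subset fun s hs => (hc hs).1, ?_⟩,
      fun s hs => Set.subset_sUnion_of_mem hs⟩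
    rintro a ⟨s, hs, has⟩ b ⟨t, ht, hbt⟩ hab
    rcases hchain.total hs ht with h | h
    · exact (hc ht).2 a (h has) b hbt hab
    · exact (hc hs).2 a has b (h hbt) hab)
  have hMc : ¬ M.Countable := by
    intro hMc
    have hT : (⋃ a ∈ M, ⋃ x ∈ (p a).dom, {y | B.lev y ≤ B.lev x}).Countable :=
      hMc.biUnion fun a _ => ((p a).dom.countable_toSet).biUnion fun x _ => B.cnt _
    have hU : (⋃ a ∈ M, Set.Iic a).Countable := hMc.biUnion fun a _ => hΩ a
    have hS3' : ∀ a ∈ S3, ∀ b ∈ S3, a ≠ b → ∀ x, x ∈ (p a).dom → x ∈ (p b).dom → x ∈ r :=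
      fun a ha b hb => hS1' a ha.1.1 b hb.1.1
    have hW := ds_low hS3' hT
    have hne : (S3 \ ((⋃ a ∈ M, Set.Iic a) ∪
        {a | a ∈ S3 ∧ ∃ y ∈ (p a).dom, y ∉ r ∧ y ∈ (⋃ a ∈ M, ⋃ x ∈ (p a).dom,
          {y | B.lev y ≤ B.lev x})})).Nonempty := by
      by_contra hc
      rw [Set.not_nonempty_iff_eq_empty, Set.sdiff_eq_empty] at hc
      exact hk ((hU.union hW).mono hc)
    obtain ⟨b, hb3, hb⟩ := hne
    rw [Set.mem_union, not_or] at hb
    have hbU : ∀ a ∈ M, a < b := by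
      intro a ha
      by_contra hc
      exact hb.1 (Set.mem_biUnion ha (not_lt.1 hc))
    have hbW : ∀ a ∈ M, sep a b := by
      intro a ha x hx y hy hyr
      by_contra hc
      exact hb.2 ⟨hb3, y, hy, hyr, Set.mem_biUnion ha (Set.mem_biUnion hx (not_lt.1 hc))⟩
    have hins : insert b M ∈ {M : Set Ω | M ⊆ S3 ∧ ∀ a ∈ M, ∀ b ∈ M, a < b → sep a b} := by
      refine ⟨Set.insert_subset hb3 hM.prop.1, ?_⟩
      rintro a (rfl | ha) c (rfl | hc) hac
      · exact absurd hac (lt_irrefl _)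
      · exact absurd (hac.trans (hbU c hc)) (lt_irrefl _)
      · exact hbW a ha
      · exact hM.prop.2 a ha c hc hac
    have := hM.le_of_ge hins (Set.subset_insert b M)
    exact absurd (hbU b (this (Set.mem_insert b M))) (lt_irrefl _)
  obtain ⟨α, hα, β, hβ, γ, hγ, hαβ, hβγ, h1, h2⟩ := hEr.2.2 M hMc
  have h3 := hM.prop.1
  have hαγ := hαβ.trans hβγ
  obtain ⟨q, hq, hqw⟩ := hA Ω Λ B ![p α, p γ, p β] ![id, tr α γ, tr α β] r rfl (by
      intro i
      fin_cases i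
      · exact Set.bijOn_id _
      · exact hbij α (h3 hα) γ (h3 hγ)
      · exact hbij α (h3 hα) β (h3 hβ)) (by
      intro i
      fin_cases i
      · intro x _ y _; rfl
      · exact hmul α (h3 hα) γ (h3 hγ)
      · exact hmul α (h3 hα) β (h3 hβ)) (by
      intro i
      fin_cases i
      · intro x _; rfl
      · exact hfix α (h3 hα) γ (h3 hγ)
      · exact hfix α (h3 hα) β (h3 hβ)) (by
      intro i
      fin_cases i
      · exact hr1 α (h3 hα).1.1
      · exact hr1 γ (h3 hγ).1.1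
      · exact hr1 β (h3 hβ).1.1) (by
      have c1 := hS1' α (h3 hα).1.1 γ (h3 hγ).1.1 hαγ.ne
      have c2 := hS1' α (h3 hα).1.1 β (h3 hβ).1.1 hαβ.ne
      have c3 := hS1' β (h3 hβ).1.1 γ (h3 hγ).1.1 hβγ.ne
      intro i k hik x
      fin_cases i <;> fin_cases k
      · exact absurd rfl hik
      · exact c1 x
      · exact c2 x
      · exact fun a b => c1 x b a
      · exact absurd rfl hik
      · exact fun a b => c3 x b a
      · exact fun a b => c2 x b a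
      · exact c3 x
      · exact absurd rfl hik) (by
      intro x hx y hy hyr
      exact (hmax x hx).trans_lt ((h3 hα).1.2 y hy hyr))
      (hM.prop.2 α hα β hβ hαβ) (hM.prop.2 α hα γ hγ hαγ) (hM.prop.2 β hβ γ hγ hβγ)
  obtain ⟨w, hw, hw1, hw2⟩ := hqw (v α) (hv α (hS1A (h3 hα).1.1))
  have hw1' : q.mul (v α) w = tr α γ (v α) := hw1
  have hw2' : q.mul (tr α γ (v α)) w = tr α β (v α) := hw2
  rw [hval α (h3 hα) γ (h3 hγ)] at hw1' hw2'
  rw [hval α (h3 hα) β (h3 hβ)] at hw2'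
  exact ⟨α, hS1A (h3 hα).1.1, β, hS1A (h3 hβ).1.1, γ, hS1A (h3 hγ).1.1, hαγ.ne, hβγ.ne, h1, h2,
    q, w, hq 0, hq 2, hq 1, hw, hw1', hw2'⟩

end CAY
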