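import Pool.Agent.H77.SSA.Core
import Pool.Agent.H78.CUR.COD

/-!
MP_fe7b28_co: the notions of the final statement, for an arbitrary structure for the membership
relation: the first uncountable ordinal, groups, connection sets of Cayley graphs, graphs and
induced subgraphs.
-/

set_option autoImplicit false
set_option linter.unusedVariables false

namespace CAY

open SW CU CUR SSA

section
variable {N : Type} [SetStr N]

/-- `V` is the first uncountable ordinal (`w` is the set of natural numbers): it is transitive
and linearly ordered by membership, uncountable, and each of its elements is countable -/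
def IsOmegaOne (w V : N) : Prop := (∀ x, E x V → Incl x V) ∧
  (∀ x y, E x V → E y V → E x y ∨ x = y ∨ E y x) ∧ ¬ SizeLe V w ∧ ∀ x, E x V → SizeLe x w

/-- `X` is (the set of ordered pairs of adjacent vertices of) a graph with vertex set `V` -/
def IsGraph (V X : N) : Prop := (∀ z, E z X → ∃ u v, E u V ∧ E v V ∧ IsOP z u v) ∧
  (∀ u v, PairIn u v X → PairIn v u X) ∧ ∀ u, ¬ PairIn u u X

/-- `e` is the unit of `G` with the multiplication `m` (`m` is a set of triples, and
`Trr x y z m` says that the triple `(x, (y, z))` belongs to `m`, that is, `x y = z`) -/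
def IsUnitOf (e G m : N) : Prop := E e G ∧ ∀ x, E x G → Trr e x x m ∧ Trr x e x m

/-- `G` with the multiplication `m` is a group -/
def IsGroup (G m : N) : Prop :=
  (∀ x y, E x G → E y G → ∃ z, E z G ∧ Trr x y z m ∧ ∀ z', Trr x y z' m → z' = z) ∧
  (∀ x y z a b p q, E x G → E y G → E z G → Trr x y a m → Trr a z p m → Trr y z b m →
    Trr x b q m → p = q) ∧
  ∃ e, IsUnitOf e G m ∧ ∀ x, E x G → ∃ y, E y G ∧ Trr x y e m ∧ Trr y x e m

/-- `S` is a connection set of a Cayley graph of the group `G`: a set of elements of `G` which
does not contain the unit, is closed under inverses, and generates `G` -/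
def IsConnection (G m S : N) : Prop := Incl S G ∧ (∀ e, IsUnitOf e G m → ¬ E e S) ∧
  (∀ e x y, IsUnitOf e G m → E x S → E y G → Trr x y e m → E y S) ∧
  ∀ H, Incl S H → Incl H G → (∀ e, IsUnitOf e G m → E e H) →
    (∀ x y z, E x H → E y H → Trr x y z m → E z H) →
    (∀ e x y, IsUnitOf e G m → E x H → E y G → Trr x y e m → E y H) → ∀ x, E x G → E x H

/-- `f` is an embedding of the graph `X` with vertex set `V` as an induced subgraph of the
Cayley graph of the group `G` with connection set `S`: it is injective, and `u`, `v` are adjacent
if and only if `f u * s = f v` for some `s` in `S` -/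
def EmbedsInduced (V X G m S f : N) : Prop := IsInjFn f V G ∧
  ∀ u v x y, E u V → E v V → PairIn u x f → PairIn v y f →
    (PairIn u v X ↔ ∃ s, E s S ∧ Trr x s y m)

/-- The cardinal aleph one does not work for aleph one: there are a graph `X` on the first
uncountable ordinal `V` and a group `G` of order at least aleph one such that `X` is not an
induced subgraph of any Cayley graph of `G`. -/
def AlephOneDoesNotWork (N : Type) [SetStr N] : Prop := ∃ w V X G m : N, IsOmega w ∧
  IsOmegaOne w V ∧ IsGraph V X ∧ IsGroup G m ∧ SizeLe V G ∧
  ∀ S, IsConnection G m S → ∀ f, ¬ EmbedsInduced V X G m S f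

end

end CAY
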