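import Pool.Agent.H77.SSA.Core
import Pool.Agent.H77.SSA.GDefs

/-!
MP_fe7b28_co: definitions. Conditions are finite groups whose elements belong to a set `Ω`; the
generic object is a group with underlying set `Ω`.
-/

set_option autoImplicit false
set_option linter.unusedVariables false
set_option synthInstance.maxSize 100000

namespace CAY

open SW CU CUR SSA

/-- levels and the future unit element -/
structure Base (Ω Λ : Type) [LinearOrder Λ] where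
  lev : Ω → Λ
  e : Ω
  e_min : ∀ x, lev e ≤ lev x
  inf : ∀ l, {x | lev x = l}.Infinite
  cnt : ∀ l, {x | lev x ≤ l}.Countable

/-- a finite group whose elements are elements of `Ω`; the elements of level at most `l` form a
subgroup for every `l` -/
structure Cond {Ω Λ : Type} [LinearOrder Λ] (B : Base Ω Λ) where
  dom : Finset Ω
  mul : Ω → Ω → Ω
  inv : Ω → Ω
  one_mem : B.e ∈ dom
  mul_mem : ∀ x ∈ dom, ∀ y ∈ dom, mul x y ∈ dom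
  inv_mem : ∀ x ∈ dom, inv x ∈ dom
  assoc : ∀ x ∈ dom, ∀ y ∈ dom, ∀ z ∈ dom, mul (mul x y) z = mul x (mul y z)
  one_mul : ∀ x ∈ dom, mul B.e x = x
  inv_mul : ∀ x ∈ dom, mul (inv x) x = B.e
  lev_mul : ∀ x ∈ dom, ∀ y ∈ dom, B.lev (mul x y) ≤ max (B.lev x) (B.lev y)

/-- stronger conditions are larger groups -/
instance condPre {Ω Λ : Type} [LinearOrder Λ] (B : Base Ω Λ) : Preorder (Cond B) where
  le q p := p.dom ⊆ q.dom ∧ ∀ x ∈ p.dom, ∀ y ∈ p.dom, q.mul x y = p.mul x y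
  le_refl p := ⟨subset_rfl, fun _ _ _ _ => rfl⟩
  le_trans a b c h1 h2 := ⟨h2.1.trans h1.1, fun x hx y hy =>
    (h1.2 x (h2.1 hx) y (h2.1 hy)).trans (h2.2 x hx y hy)⟩

/-- a symmetric relation such that every uncountable set contains `α < β < γ` with `α` related
and `β` not related to `γ` -/
def Sier {Ω : Type} [LinearOrder Ω] (Er : Ω → Ω → Prop) : Prop := (∀ a b, Er a b → Er b a) ∧
  (∀ a, ¬ Er a a) ∧ ∀ A : Set Ω, ¬ A.Countable → ∃ α ∈ A, ∃ β ∈ A, ∃ γ ∈ A, α < β ∧ β < γ ∧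
    Er α γ ∧ ¬ Er β γ

/-- EXT: density -/
def EXTStmt : Prop := ∀ (Ω Λ : Type) [LinearOrder Λ] [WellFoundedLT Λ] (B : Base Ω Λ)
  (p : Cond B) (ξ : Ω), ∃ q, q ≤ p ∧ ξ ∈ q.dom

/-- AMG: amalgamation of three isomorphic conditions such that corresponding elements form a
progression `x, x w, x w w` -/
def AMGStmt : Prop := ∀ (Ω Λ : Type) [LinearOrder Λ] [WellFoundedLT Λ] (B : Base Ω Λ)
  (p : Fin 3 → Cond B) (e : Fin 3 → Ω → Ω) (r : Finset Ω), e 0 = id →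
  (∀ i, Set.BijOn (e i) (p 0).dom (p i).dom) →
  (∀ i, ∀ x ∈ (p 0).dom, ∀ y ∈ (p 0).dom, e i ((p 0).mul x y) = (p i).mul (e i x) (e i y)) →
  (∀ i, ∀ x ∈ r, e i x = x) → (∀ i, r ⊆ (p i).dom) →
  (∀ i k, i ≠ k → ∀ x, x ∈ (p i).dom → x ∈ (p k).dom → x ∈ r) →
  (∀ x ∈ r, ∀ y ∈ (p 0).dom, y ∉ r → B.lev x < B.lev y) →
  (∀ x ∈ (p 0).dom, ∀ y ∈ (p 2).dom, y ∉ r → B.lev x < B.lev y) →
  (∀ x ∈ (p 0).dom, ∀ y ∈ (p 1).dom, y ∉ r → B.lev x < B.lev y) →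
  (∀ x ∈ (p 2).dom, ∀ y ∈ (p 1).dom, y ∉ r → B.lev x < B.lev y) →
  ∃ q : Cond B, (∀ i, q ≤ p i) ∧
    ∀ x ∈ (p 0).dom, ∃ w ∈ q.dom, q.mul x w = e 1 x ∧ q.mul (e 1 x) w = e 2 x

/-- CAT: the catching property -/
def CATStmt : Prop := ∀ (Ω Λ : Type) [LinearOrder Λ] [WellFoundedLT Λ] (B : Base Ω Λ)
  [LinearOrder Ω] (hΩ : ∀ ξ : Ω, (Set.Iic ξ).Countable) (Er : Ω → Ω → Prop), Sier Er →
  ∀ (A : Set Ω), ¬ A.Countable → ∀ (p : Ω → Cond B) (v : Ω → Ω), (∀ α ∈ A, v α ∈ (p α).dom) →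
  ∃ α ∈ A, ∃ β ∈ A, ∃ γ ∈ A, α ≠ γ ∧ β ≠ γ ∧ Er α γ ∧ ¬ Er β γ ∧
    ∃ (q : Cond B) (w : Ω), q ≤ p α ∧ q ≤ p β ∧ q ≤ p γ ∧ w ∈ q.dom ∧
      q.mul (v α) w = v γ ∧ q.mul (v γ) w = v β

/-- SIE: there is such a graph on a well ordered uncountable set with countable initial
segments and with levels -/
def SIEStmt : Prop := ∃ (Ω Λ : Type) (_ : LinearOrder Ω) (_ : WellFoundedLT Ω)
  (_ : LinearOrder Λ) (_ : WellFoundedLT Λ) (B : Base Ω Λ) (Er : Ω → Ω → Prop),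
  ¬ (Set.univ : Set Ω).Countable ∧ (∀ ξ : Ω, (Set.Iic ξ).Countable) ∧ Sier Er

end CAY
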