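import Pool.Agent.H77.CAY.Core
import Pool.Agent.H28.SSA.LEX

/-!
The interface between the generic model and the statement, and the statement from the interface.
-/

set_option autoImplicit false
set_option linter.unusedVariables false
set_option synthInstance.maxSize 100000

namespace CAY

open SW CU CUR SSA

/-- The interface: `o` is the index set, `M` the multiplication and `X` the graph. -/
structure Ifc (N : Type) [SetStr N] [ZF N] (o M X : N) : Prop where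
  tr : ∀ x, E x o → Incl x o
  lin : ∀ x y, E x o → E y o → E x y ∨ x = y ∨ E y x
  cnt : ∀ x, E x o → SizeLe x om
  unc : ¬ SizeLe o om
  mul : ∀ x y, E x o → E y o → ∃ z, E z o ∧ Trr x y z M
  uni : ∀ x y z z', E x o → E y o → E z o → E z' o → Trr x y z M → Trr x y z' M → z' = z
  asc : ∀ x y z a b p q, E x o → E y o → E z o → E a o → E b o → E p o → E q o → Trr x y a M →
    Trr a z p M → Trr y z b M → Trr x b q M → p = q
  one : ∃ e, E e o ∧ (∀ x, E x o → Trr e x x M ∧ Trr x e x M) ∧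
    ∀ x, E x o → ∃ y, E y o ∧ Trr x y e M ∧ Trr y x e M
  sym : ∀ u v, E u o → E v o → PairIn u v X → PairIn v u X
  irr : ∀ u, E u o → ¬ PairIn u u X
  cat : ∀ f, IsInjFn f o o → ∃ α β γ a b d w, E α o ∧ E β o ∧ E γ o ∧ E a o ∧ E b o ∧ E d o ∧
    E w o ∧ PairIn α γ X ∧ ¬ PairIn β γ X ∧ PairIn α a f ∧ PairIn β b f ∧ PairIn γ d f ∧
    Trr a w d M ∧ Trr d w b M

section
variable {N : Type} [SetStr N]

theorem left_cancel {G m : N} (h : IsGroup G m) {a w s d : N} (ha : E a G) (hw : E w G)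
    (hs : E s G) (hd : E d G) (h1 : Trr a w d m) (h2 : Trr a s d m) : w = s := by
  obtain ⟨hm, has, e, he, hi⟩ := h
  obtain ⟨a', ha', _, h3⟩ := hi a ha
  obtain ⟨q, hq, h4, h5⟩ := hm a' d ha' hd
  have e1 : w = q := has a' a w e d w q ha' ha hw h3 (he.2 w hw).1 h1 h4
  have e2 : s = q := has a' a s e d s q ha' ha hs h3 (he.2 s hs).1 h2 h4
  exact e1.trans e2.symm

end

section
variable {N : Type} [SetStr N] [ZF N]

/-- the multiplication restricted to `o` -/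
noncomputable def rM (o M : N) : N := sep (prod o (prod o o)) (fun t => E t M)

/-- the graph restricted to `o` -/
noncomputable def rX (o X : N) : N := sep (prod o o) (fun t => E t X)

theorem trr_iff {x y z M : N} : Trr x y z M ↔ E (opair x (opair y z)) M := by
  constructor
  · rintro ⟨u, h1, h2⟩
    rw [isOP_iff] at h1
    rw [pairIn_iff, h1] at h2
    exact h2
  · intro h
    exact ⟨opair y z, isOP_iff.2 rfl, pairIn_iff.2 h⟩

theorem trr_rM {o M x y z : N} : Trr x y z (rM o M) ↔ E x o ∧ E y o ∧ E z o ∧ Trr x y z M := by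
  rw [trr_iff, trr_iff]
  unfold rM
  rw [mem_sep, mem_prod, mem_prod]
  tauto

theorem pairIn_rX {o X x y : N} : PairIn x y (rX o X) ↔ E x o ∧ E y o ∧ PairIn x y X := by
  rw [pairIn_iff, pairIn_iff]
  unfold rX
  rw [mem_sep, mem_prod]
  tauto

variable {o M X : N}

theorem grp (h : Ifc N o M X) : IsGroup o (rM o M) := by
  refine ⟨fun x y hx hy => ?_, fun x y z a b p q hx hy hz h1 h2 h3 h4 => ?_, ?_⟩
  · obtain ⟨z, hz, h1⟩ := h.mul x y hx hy
    refine ⟨z, hz, trr_rM.2 ⟨hx, hy, hz, h1⟩, fun z' h2 => ?_⟩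
    rw [trr_rM] at h2
    exact h.uni x y z z' hx hy hz h2.2.2.1 h1 h2.2.2.2
  · rw [trr_rM] at h1 h2 h3 h4
    exact h.asc x y z a b p q hx hy hz h1.2.2.1 h3.2.2.1 h2.2.2.1 h4.2.2.1 h1.2.2.2 h2.2.2.2
      h3.2.2.2 h4.2.2.2
  · obtain ⟨e, he, h1, h2⟩ := h.one
    refine ⟨e, ⟨he, fun x hx => ⟨trr_rM.2 ⟨he, hx, hx, (h1 x hx).1⟩,
      trr_rM.2 ⟨hx, he, hx, (h1 x hx).2⟩⟩⟩, fun x hx => ?_⟩
    obtain ⟨y, hy, h3, h4⟩ := h2 x hx
    exact ⟨y, hy, trr_rM.2 ⟨hx, hy, he, h3⟩, trr_rM.2 ⟨hy, hx, he, h4⟩⟩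

theorem gra (h : Ifc N o M X) : IsGraph o (rX o X) := by
  refine ⟨fun z hz => ?_, fun u v huv => ?_, fun u hu => ?_⟩
  · unfold rX at hz
    rw [mem_sep, mem_prod'] at hz
    obtain ⟨⟨a, b, ha, hb, rfl⟩, _⟩ := hz
    exact ⟨a, b, ha, hb, isOP_iff.2 rfl⟩
  · rw [pairIn_rX] at huv ⊢
    exact ⟨huv.2.1, huv.1, h.sym u v huv.1 huv.2.1 huv.2.2⟩
  · rw [pairIn_rX] at hu
    exact h.irr u hu.1 hu.2.2

/-- the statement from the interface -/
theorem fin (h : Ifc N o M X) : AlephOneDoesNotWork N := by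
  refine ⟨om, o, rX o X, o, rM o M, isOmega_om, ⟨h.tr, h.lin, h.unc, h.cnt⟩, gra h, grp h,
    ?_, ?_⟩
  · exact ⟨_, injFn_gr (F := fun x => x) (by infer_instance) (fun x hx => hx)
      (fun x x' _ _ e => e)⟩
  · intro S hS f hf
    obtain ⟨α, β, γ, a, b, d, w, hα, hβ, hγ, ha, hb, hd, hw, h1, h2, h3, h4, h5, h6, h7⟩ :=
      h.cat f hf.1
    obtain ⟨s, hs, hs'⟩ := (hf.2 α γ a d hα hγ h3 h5).1 (pairIn_rX.2 ⟨hα, hγ, h1⟩)
    have e := left_cancel (grp h) ha hw (hS.1 s hs) hd (trr_rM.2 ⟨ha, hw, hd, h6⟩) hs'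
    subst e
    have h8 := (gra h).2.1 _ _ ((hf.2 γ β d b hγ hβ h5 h4).2 ⟨w, hs, trr_rM.2 ⟨hd, hw, hb, h7⟩⟩)
    exact h2 (pairIn_rX.1 h8).2.2

end

end CAY
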