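import Pool.Agent.H77.CAY.Core
import Pool.Agent.H77.SSA.Sent

/-!
The statement is expressed by a sentence of the language of set theory.
-/

set_option autoImplicit false
set_option linter.unusedVariables false
set_option synthInstance.maxSize 100000

namespace CAY

open SW CU CUR SSA

theorem isOmegaOne_u : UDf (fun M _ (w : Fin 2 → M) => IsOmegaOne (w 0) (w 1)) := by
  unfold IsOmegaOne; infer_instance

instance isOmegaOne_i {n : ℕ} {t s : ∀ (M : Type) [SetStr M], (Fin n → M) → M} [UV t] [UV s] :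
    UDf (fun M _ v => IsOmegaOne (t M v) (s M v)) :=
  isOmegaOne_u.comp2 (R := fun _ _ a b => IsOmegaOne a b) t s

theorem isGraph_u : UDf (fun M _ (w : Fin 2 → M) => IsGraph (w 0) (w 1)) := by
  unfold IsGraph; infer_instance

instance isGraph_i {n : ℕ} {t s : ∀ (M : Type) [SetStr M], (Fin n → M) → M} [UV t] [UV s] :
    UDf (fun M _ v => IsGraph (t M v) (s M v)) :=
  isGraph_u.comp2 (R := fun _ _ a b => IsGraph a b) t s

theorem isUnitOf_u : UDf (fun M _ (w : Fin 3 → M) => IsUnitOf (w 0) (w 1) (w 2)) := by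
  unfold IsUnitOf; infer_instance

instance isUnitOf_i {n : ℕ} {t s u : ∀ (M : Type) [SetStr M], (Fin n → M) → M} [UV t] [UV s]
    [UV u] : UDf (fun M _ v => IsUnitOf (t M v) (s M v) (u M v)) :=
  isUnitOf_u.comp3 (R := fun _ _ a b c => IsUnitOf a b c) t s u

theorem isGroup_u : UDf (fun M _ (w : Fin 2 → M) => IsGroup (w 0) (w 1)) := by
  unfold IsGroup; infer_instance

instance isGroup_i {n : ℕ} {t s : ∀ (M : Type) [SetStr M], (Fin n → M) → M} [UV t] [UV s] :
    UDf (fun M _ v => IsGroup (t M v) (s M v)) :=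
  isGroup_u.comp2 (R := fun _ _ a b => IsGroup a b) t s

theorem isConnection_u : UDf (fun M _ (w : Fin 3 → M) => IsConnection (w 0) (w 1) (w 2)) := by
  unfold IsConnection; infer_instance

instance isConnection_i {n : ℕ} {t s u : ∀ (M : Type) [SetStr M], (Fin n → M) → M} [UV t] [UV s]
    [UV u] : UDf (fun M _ v => IsConnection (t M v) (s M v) (u M v)) :=
  isConnection_u.comp3 (R := fun _ _ a b c => IsConnection a b c) t s u

theorem statement_u : UDf (fun M _ (w : Fin 0 → M) => AlephOneDoesNotWork M) := by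
  unfold AlephOneDoesNotWork EmbedsInduced; infer_instance

/-- the sentence -/
theorem exists_sentence : ∃ φ : Fml 0, ∀ (N : Type) [SetStr N],
    Sat (M := N) φ Fin.elim0 ↔ AlephOneDoesNotWork N := by
  obtain ⟨f, hf⟩ := statement_u.out
  exact ⟨f, fun N _ => (hf N Fin.elim0).symm⟩

end CAY
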