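import Pool.Agent.H77.CAY.Defs

/-! The index set and the graph. -/

set_option autoImplicit false
set_option linter.unusedVariables false

namespace CAY

open Cardinal

/-- a countable subset witnessing all values below -/
theorem low_wit {Ω : Type} (r : Ω → ℝ) (A : Set Ω) : ∃ C : Set Ω, C.Countable ∧ C ⊆ A ∧
    ∀ γ ∈ A, (∃ a ∈ A, r a < r γ) → ∃ a ∈ C, r a < r γ := by
  classical
  let f : ℚ → Set Ω := fun q => if h : ∃ a ∈ A, r a < q then {h.choose} else ∅
  refine ⟨⋃ q, f q, Set.countable_iUnion fun q => ?_, Set.iUnion_subset fun q => ?_, ?_⟩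
  · simp only [f]; split_ifs
    · exact Set.countable_singleton _
    · exact Set.countable_empty
  · simp only [f]; split_ifs with h
    · exact Set.singleton_subset_iff.2 h.choose_spec.1
    · exact Set.empty_subset _
  · rintro γ _ ⟨a, ha, hlt⟩
    obtain ⟨q, hq1, hq2⟩ := exists_rat_btwn hlt
    have h : ∃ a ∈ A, r a < q := ⟨a, ha, hq1⟩
    refine ⟨h.choose, Set.mem_iUnion.2 ⟨q, ?_⟩, h.choose_spec.2.trans hq2⟩
    simp only [f]; rw [dif_pos h]; rfl

theorem sier_real {Ω : Type} [LinearOrder Ω] (hΩ : ∀ ξ : Ω, (Set.Iic ξ).Countable) (r : Ω → ℝ)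
    (hr : Function.Injective r) : Sier (fun a b : Ω => a ≠ b ∧ (a < b ↔ r a < r b)) := by
  refine ⟨?_, fun a h => h.1 rfl, ?_⟩
  · rintro a b ⟨h1, h2⟩
    refine ⟨h1.symm, ?_⟩
    have h3 : r a ≠ r b := fun h => h1 (hr h)
    constructor
    · intro h
      by_contra hc
      exact absurd (h2.2 (lt_of_le_of_ne (not_lt.1 hc) h3)) (not_lt.2 h.le)
    · intro h
      by_contra hc
      exact absurd (h2.1 (lt_of_le_of_ne (not_lt.1 hc) h1)) (not_lt.2 h.le)
  · intro A hA
    obtain ⟨C, hC1, hC2, hC3⟩ := low_wit r A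
    set A' := A \ ⋃ c ∈ C, Set.Iic c with hA'
    have hA'c : ¬ A'.Countable := fun h => hA ((h.union (hC1.biUnion fun c _ => hΩ c)).mono
      (fun x hx => by
        by_cases hx' : x ∈ ⋃ c ∈ C, Set.Iic c
        · exact Or.inr hx'
        · exact Or.inl ⟨hx, hx'⟩))
    obtain ⟨C', hC'1, hC'2, hC'3⟩ := low_wit (fun x => - r x) A'
    set A'' := A' \ ⋃ c ∈ C', Set.Iic c with hA''
    have hA''c : ¬ A''.Countable := fun h => hA'c ((h.union (hC'1.biUnion fun c _ => hΩ c)).mono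
      (fun x hx => by
        by_cases hx' : x ∈ ⋃ c ∈ C', Set.Iic c
        · exact Or.inr hx'
        · exact Or.inl ⟨hx, hx'⟩))
    have hm1 : {γ | γ ∈ A'' ∧ ∀ a ∈ A'', r γ ≤ r a}.Countable := by
      refine Set.Subsingleton.countable ?_
      rintro x ⟨hx, hx'⟩ y ⟨hy, hy'⟩
      exact hr (le_antisymm (hx' y hy) (hy' x hx))
    have hm2 : {γ | γ ∈ A'' ∧ ∀ a ∈ A'', r a ≤ r γ}.Countable := by
      refine Set.Subsingleton.countable ?_
      rintro x ⟨hx, hx'⟩ y ⟨hy, hy'⟩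
      exact hr (le_antisymm (hy' x hx) (hx' y hy))
    have : ∃ γ ∈ A'', (∃ a ∈ A'', r a < r γ) ∧ ∃ b ∈ A'', r γ < r b := by
      by_contra hc
      push Not at hc
      apply hA''c
      refine (hm1.union hm2).mono (fun γ hγ => ?_)
      by_cases h : ∃ a ∈ A'', r a < r γ
      · obtain ⟨a, ha, hlt⟩ := h
        exact Or.inr ⟨hγ, hc γ hγ ⟨a, ha, hlt⟩⟩
      · push Not at h
        exact Or.inl ⟨hγ, h⟩
    obtain ⟨γ, hγ, ⟨a, ha, hlt⟩, b, hb, hgt⟩ := this
    obtain ⟨α, hα, hαγ⟩ := hC3 γ hγ.1.1 ⟨a, ha.1.1, hlt⟩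
    obtain ⟨β, hβ, hβγ⟩ := hC'3 γ hγ.1 ⟨b, hb.1, neg_lt_neg hgt⟩
    have hβγ' : r γ < r β := by
      have : - r β < - r γ := hβγ
      linarith
    have h1 : ∀ x ∈ A', α < x := fun x hx => by
      by_contra hc
      exact hx.2 (Set.mem_biUnion hα (not_lt.1 hc))
    have h2 : ∀ x ∈ A'', β < x := fun x hx => by
      by_contra hc
      exact hx.2 (Set.mem_biUnion hβ (not_lt.1 hc))
    refine ⟨α, hC2 hα, β, (hC'2 hβ).1, γ, hγ.1.1, h1 β (hC'2 hβ), h2 γ hγ, ?_, ?_⟩
    · have h3 := h1 γ hγ.1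
      exact ⟨h3.ne, fun _ => hαγ, fun _ => h3⟩
    · rintro ⟨h3, h4⟩
      exact absurd (h4.1 (h2 γ hγ)) (not_lt.2 hβγ'.le)

/-- the levels -/
abbrev Lm : Type := (Cardinal.aleph 1).ord.ToType

theorem lm_card : #Lm = Cardinal.aleph 1 := Cardinal.mk_ord_toType _

theorem lm_iio (l : Lm) : (Set.Iio l).Countable := by
  rw [Cardinal.countable_iff_lt_aleph_one]
  exact Cardinal.mk_Iio_ord_toType l

theorem lm_iic (l : Lm) : (Set.Iic l).Countable := by
  have : Set.Iic l = insert l (Set.Iio l) := by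
    ext x; simp [le_iff_eq_or_lt]
  rw [this]
  exact (lm_iio l).insert l

/-- the index set -/
abbrev Ox : Type := Lm ×ₗ ℕ

theorem lev_cnt (l : Lm) : {x : Ox | (ofLex x).1 ≤ l}.Countable := by
  have h : ((Set.Iic l) ×ˢ (Set.univ : Set ℕ)).Countable := (lm_iic l).prod Set.countable_univ
  refine (h.image toLex).mono (fun x hx => ?_)
  exact ⟨ofLex x, ⟨hx, trivial⟩, rfl⟩

theorem sie : SIEStmt := by
  classical
  have hne : Nonempty Lm := by
    rw [← Cardinal.mk_ne_zero_iff, lm_card]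
    exact (Cardinal.aleph_pos 1).ne'
  have hwf : WellFounded (fun a b : Lm => a < b) := wellFounded_lt
  let m : Lm := hwf.min Set.univ ⟨hne.some, trivial⟩
  have hm : ∀ l : Lm, m ≤ l := fun l => not_lt.1 (hwf.not_lt_min Set.univ trivial)
  let B : Base Ox Lm :=
    { lev := fun x => (ofLex x).1
      e := toLex (m, 0)
      e_min := fun x => hm _
      inf := by
        intro l
        refine Set.infinite_of_injective_forall_mem (f := fun n : ℕ => (toLex (l, n) : Ox)) ?_ ?_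
        · intro a b h
          exact (Prod.mk.inj (toLex.injective h)).2
        · intro n; rfl
      cnt := lev_cnt }
  have hic : ∀ ξ : Ox, (Set.Iic ξ).Countable := by
    intro ξ
    refine (lev_cnt (ofLex ξ).1).mono (fun x hx => ?_)
    exact Prod.Lex.monotone_fst _ _ hx
  have hle : #Ox ≤ #ℝ := by
    have h1 : #Ox = #(Lm × ℕ) := Cardinal.mk_congr ofLex
    rw [h1, Cardinal.mk_prod, Cardinal.lift_id, Cardinal.lift_id, lm_card, Cardinal.mk_real,
      Cardinal.mk_nat]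
    calc Cardinal.aleph 1 * ℵ₀ ≤ 𝔠 * 𝔠 :=
        mul_le_mul' Cardinal.aleph_one_le_continuum Cardinal.aleph0_le_continuum
      _ = 𝔠 := Cardinal.continuum_mul_self
  obtain ⟨f⟩ := Cardinal.le_def _ _ |>.1 hle
  refine ⟨Ox, Lm, inferInstance, inferInstance, inferInstance, inferInstance, B,
    fun a b => a ≠ b ∧ (a < b ↔ f a < f b), ?_, hic, sier_real hic f f.injective⟩
  intro hc
  have h1 : Countable Lm := by
    have h2 : Countable Ox := Set.countable_univ_iff.1 hc
    exact Function.Injective.countable (f := fun l : Lm => (toLex (l, 0) : Ox)) (fun a b h =>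
      (Prod.mk.inj (toLex.injective h)).1)
  have h2 : #Lm ≤ ℵ₀ := Cardinal.mk_le_aleph0_iff.2 h1
  rw [lm_card] at h2
  exact absurd h2 (not_le.2 Cardinal.aleph0_lt_aleph_one)

end CAY
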