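import Pool.Agent.H77.CAY.GenB
import Pool.Agent.H77.CAY.Sie
import Pool.Agent.H77.CAY.Sent

/-!
The model and the final theorem.
-/

set_option autoImplicit false
set_option linter.unusedVariables false
set_option synthInstance.maxSize 100000

namespace CAY

open SW CU CUR SSA

/-- the model -/
theorem model : ∃ (N : Type) (_ : SetStr N) (_ : ZFC N), Countable N ∧
    WellFounded (fun x y : N => E x y) ∧ AlephOneDoesNotWork N := by
  obtain ⟨Ω, Λ, _, _, _, _, B, Er, hun, hΩ, hS⟩ := sie
  have p : Cond B :=
    { dom := {B.e}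
      mul := fun _ _ => B.e
      inv := fun _ => B.e
      one_mem := by simp
      mul_mem := by simp
      inv_mem := by simp
      assoc := by simp
      one_mul := by simp
      inv_mul := by simp
      lev_mul := fun x hx y hy => (B.e_min x).trans (le_max_left _ _) }
  obtain ⟨ν, c, u, hg, _, hr, hu⟩ := gen_rich p (fun i => match i with
    | 0 => oN (Cond B) Ω
    | 1 => mN B
    | _ => xN (Cond B) Er)
  have hZC : ZFC (GQ ν c) := ssa_cho (Cond B) ν c hg
  have hZ : ZF (GQ ν c) := gn_zf hg
  have h0 : ν (u 0) = oN (Cond B) Ω := hu 0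
  have h1 : ν (u 1) = mN B := hu 1
  have h2 : ν (u 2) = xN (Cond B) Er := hu 2
  refine ⟨GQ ν c, inferInstance, hZC, inferInstance, gn_wf hg, ?_⟩
  refine fin (o := qc ν c (u 0)) (M := qc ν c (u 1)) (X := qc ν c (u 2)) ?_
  exact { tr := g_tr hg h0
          lin := g_lin hg h0
          cnt := g_cnt hΩ hg hr h0
          unc := g_unc hΩ hun hS hg hr h0
          mul := g_mul hg hr h0 h1
          uni := g_uni hg h0 h1
          asc := g_asc hg h0 h1
          one := g_one hg hr h0 h1
          sym := g_sym hS.1 hg h0 h2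
          irr := g_irr hS.2.1 hg h0 h2
          cat := g_cat hΩ hun hS hg hr h0 h1 h2 }

end CAY
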