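import Pool.Agent.H77.CAY.Names
import Pool.Agent.H77.CAY.Alg
import Pool.Agent.H77.CAY.Fin
import Pool.Agent.H77.SSA.Sent

/-!
The simple properties of the interface hold in the generic quotient.
-/

set_option autoImplicit false
set_option linter.unusedVariables false
set_option synthInstance.maxSize 100000

namespace CAY

open SW CU CUR SSA

section
variable {P : Type} [Preorder P] {ν : ℕ → HN P Tg} {c : ℕ → P}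
variable {Ω : Type} [LinearOrder Ω] [WellFoundedLT Ω]

theorem g_tr (hg : Gn ν c) {o : ℕ} (ho : ν o = oN P Ω) (x : GQ ν c) (hx : E x (qc ν c o)) :
    Incl x (qc ν c o) := by
  obtain ⟨ξ, m, hm, rfl⟩ := (ev_o hg ho x).1 hx
  intro y hy
  obtain ⟨η, m', _, hm', rfl⟩ := (ev_lt hg hm y).1 hy
  exact (ev_o hg ho _).2 ⟨η, m', hm', rfl⟩

theorem g_lin (hg : Gn ν c) {o : ℕ} (ho : ν o = oN P Ω) (x y : GQ ν c) (hx : E x (qc ν c o))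
    (hy : E y (qc ν c o)) : E x y ∨ x = y ∨ E y x := by
  obtain ⟨ξ, m, hm, rfl⟩ := (ev_o hg ho x).1 hx
  obtain ⟨η, m', hm', rfl⟩ := (ev_o hg ho y).1 hy
  rcases lt_trichotomy ξ η with h | h | h
  · exact Or.inl ((ev_lt hg hm' _).2 ⟨ξ, m, h, hm, rfl⟩)
  · exact Or.inr (Or.inl ((ev_eq hg hm hm').2 h))
  · exact Or.inr (Or.inr ((ev_lt hg hm _).2 ⟨η, m', h, hm', rfl⟩))

theorem g_cnt (hΩ : ∀ ξ : Ω, (Set.Iic ξ).Countable) (hg : Gn ν c) (hr : Rich ν)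
    [ZF (GQ ν c)] {o : ℕ} (ho : ν o = oN P Ω) (x : GQ ν c)
    (hx : E x (qc ν c o)) : SizeLe x (om : GQ ν c) := by
  obtain ⟨ξ, m, hm, rfl⟩ := (ev_o hg ho x).1 hx
  obtain ⟨j, hj⟩ := hr.2
  obtain ⟨b1, b2, b3⟩ := ssa_bas P ν c hg hr
  obtain ⟨g, hgi⟩ : ∃ g : Ω → ℕ, ∀ η η', η < ξ → η' < ξ → g η = g η' → η = η' := by
    obtain ⟨g, hg'⟩ := Set.countable_iff_exists_injOn.1 (hΩ ξ)
    exact ⟨g, fun η η' h1 h2 e => hg' h1.le h2.le e⟩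
  have key := fb_get P ν c hg (fun N _ (w : Fin 2 → N) => SizeLe (w 0) (w 1)) ![m, j] 0
    (fun _ => True) (fun q _ => ⟨q, le_rfl, trivial⟩) ?_
  · rw [← b3 j hj]
    exact key
  · intro r _ _
    refine ⟨fun _ => cN P g ξ, fun ν' c' hg' hr' hl w' hw' u hu => ?_⟩
    have := gn_zf hg'
    obtain ⟨d1, d2, d3⟩ := ssa_bas P ν' c' hg' hr'
    have w0 : ν' (w' 0) = chkH ξ := (hw' 0).trans hm
    have w1 : ν' (w' 1) = omH P Tg := (hw' 1).trans hj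
    have u0 : ν' (u 0) = cN P g ξ := hu 0
    show SizeLe (qc ν' c' (w' 0)) (qc ν' c' (w' 1))
    rw [d3 _ w1]
    refine ⟨sep (prod (qc ν' c' (w' 0)) om) (fun t => E t (qc ν' c' (u 0))), ?_⟩
    have hE : ∀ x y : GQ ν' c', PairIn x y (sep (prod (qc ν' c' (w' 0)) om)
        (fun t => E t (qc ν' c' (u 0)))) ↔ ∃ (η : Ω) (a : ℕ), η < ξ ∧ ν' a = chkH η ∧
          x = qc ν' c' a ∧ y = nu (g η) := by
      intro x y
      rw [pairIn_iff, mem_sep, mem_prod]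
      constructor
      · rintro ⟨⟨h1, h2⟩, h3⟩
        obtain ⟨η, a, h4, h5, rfl⟩ := (ev_lt hg' w0 x).1 h1
        obtain ⟨n, rfl⟩ := d1 y h2
        obtain ⟨b, hb⟩ := hr'.1 n
        rw [← pairIn_iff, ← d2 b n hb] at h3
        obtain ⟨_, h6⟩ := (ev_c hg' u0 h5 hb).1 h3
        exact ⟨η, a, h4, h5, rfl, by rw [h6]⟩
      · rintro ⟨η, a, h4, h5, rfl, rfl⟩
        refine ⟨⟨(ev_lt hg' w0 _).2 ⟨η, a, h4, h5, rfl⟩, nu_mem_om _⟩, ?_⟩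
        obtain ⟨b, hb⟩ := hr'.1 (g η)
        rw [← pairIn_iff, ← d2 b _ hb]
        exact (ev_c hg' u0 h5 hb).2 ⟨h4, rfl⟩
    refine ⟨⟨fun z hz => ?_, fun x hx => ?_, fun x y y' h1 h2 => ?_⟩, fun x x' y h1 h2 => ?_⟩
    · rw [mem_sep, mem_prod'] at hz
      obtain ⟨⟨a, b, ha, hb, rfl⟩, _⟩ := hz
      exact ⟨a, b, ha, hb, isOP_iff.2 rfl⟩
    · obtain ⟨η, a, h4, h5, rfl⟩ := (ev_lt hg' w0 x).1 hx
      exact ⟨_, (hE _ _).2 ⟨η, a, h4, h5, rfl, rfl⟩⟩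
    · obtain ⟨η, a, h3, h4, rfl, rfl⟩ := (hE _ _).1 h1
      obtain ⟨η', a', h3', h4', h5, rfl⟩ := (hE _ _).1 h2
      rw [(ev_eq hg' h4 h4').1 h5]
    · obtain ⟨η, a, h3, h4, rfl, rfl⟩ := (hE _ _).1 h1
      obtain ⟨η', a', h3', h4', rfl, h5⟩ := (hE _ _).1 h2
      exact (ev_eq hg' h4 h4').2 (hgi η η' h3 h3' (nu_inj h5))

theorem g_sym {Er : Ω → Ω → Prop} (hs : ∀ a b, Er a b → Er b a) (hg : Gn ν c) {o k : ℕ}
    (ho : ν o = oN P Ω) (hk : ν k = xN P Er) (u v : GQ ν c) (hu : E u (qc ν c o))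
    (hv : E v (qc ν c o)) (h : PairIn u v (qc ν c k)) : PairIn v u (qc ν c k) := by
  obtain ⟨ξ, m, hm, rfl⟩ := (ev_o hg ho u).1 hu
  obtain ⟨η, m', hm', rfl⟩ := (ev_o hg ho v).1 hv
  rw [ev_x hg hk hm hm'] at h
  exact (ev_x hg hk hm' hm).2 (hs _ _ h)

theorem g_irr {Er : Ω → Ω → Prop} (hs : ∀ a, ¬ Er a a) (hg : Gn ν c) {o k : ℕ}
    (ho : ν o = oN P Ω) (hk : ν k = xN P Er) (u : GQ ν c) (hu : E u (qc ν c o)) :
    ¬ PairIn u u (qc ν c k) := by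
  obtain ⟨ξ, m, hm, rfl⟩ := (ev_o hg ho u).1 hu
  rw [ev_x hg hk hm hm]
  exact hs _

end

section
variable {Ω Λ : Type} [LinearOrder Λ] [WellFoundedLT Λ] [LinearOrder Ω] [WellFoundedLT Ω]
  {B : Base Ω Λ} {ν : ℕ → HN (Cond B) Tg} {c : ℕ → Cond B}

/-- two elements -/
theorem ext2 (p : Cond B) (ξ η : Ω) : ∃ q, q ≤ p ∧ ξ ∈ q.dom ∧ η ∈ q.dom := by
  obtain ⟨q, hq, h1⟩ := ext Ω Λ B p ξ
  obtain ⟨r, hr, h2⟩ := ext Ω Λ B q η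
  exact ⟨r, hr.trans hq, hr.1 h1, h2⟩

theorem g_mul (hg : Gn ν c) (hr : Rich ν) {o k : ℕ} (ho : ν o = oN (Cond B) Ω)
    (hk : ν k = mN B) (x y : GQ ν c) (hx : E x (qc ν c o)) (hy : E y (qc ν c o)) :
    ∃ z, E z (qc ν c o) ∧ Trr x y z (qc ν c k) := by
  obtain ⟨ξ, m, hm, rfl⟩ := (ev_o hg ho x).1 hx
  obtain ⟨η, m', hm', rfl⟩ := (ev_o hg ho y).1 hy
  refine fb_get (Cond B) ν c hg (fun N _ (w : Fin 4 → N) => ∃ z, E z (w 2) ∧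
    Trr (w 0) (w 1) z (w 3)) ![m, m', o, k] 0 (fun r => ξ ∈ r.dom ∧ η ∈ r.dom)
    (fun q _ => ext2 q ξ η) fun r hr1 _ => ?_
  refine ⟨fun _ => chkH (r.mul ξ η), fun ν' c' hg' hr' hl w' hw' u hu => ?_⟩
  have w0 : ν' (w' 0) = chkH ξ := (hw' 0).trans hm
  have w1 : ν' (w' 1) = chkH η := (hw' 1).trans hm'
  have w2 : ν' (w' 2) = oN (Cond B) Ω := (hw' 2).trans ho
  have w3 : ν' (w' 3) = mN B := (hw' 3).trans hk
  have u0 : ν' (u 0) = chkH (r.mul ξ η) := hu 0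
  exact ⟨qc ν' c' (u 0), (ev_o hg' w2 _).2 ⟨_, _, u0, rfl⟩,
    ev_m_of hg' w3 w0 w1 u0 (r := r) ⟨hr1.1, hr1.2, rfl⟩ hl⟩

/-- several values hold in a common condition -/
theorem common (hg : Gn ν c) {k : ℕ} (hk : ν k = mN B) {ι : Type} [Finite ι]
    (t : ι → Ω × Ω × Ω) (a : ι → ℕ × ℕ × ℕ) (ha : ∀ i, ν (a i).1 = chkH (t i).1 ∧
      ν (a i).2.1 = chkH (t i).2.1 ∧ ν (a i).2.2 = chkH (t i).2.2)
    (h : ∀ i, Trr (qc ν c (a i).1) (qc ν c (a i).2.1) (qc ν c (a i).2.2) (qc ν c k)) :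
    ∃ r : Cond B, ∀ i, QM B r (t i) := by
  classical
  have hle := le_of_anti hg.anti
  have h1 : ∀ i, ∃ l, ∀ q, q ≤ c l → ∃ r, r ≤ q ∧ QM B r (t i) := fun i =>
    ev_m_get hg hk (ha i).1 (ha i).2.1 (ha i).2.2 (h i)
  choose l hl using h1
  obtain ⟨K, hK⟩ : ∃ K, ∀ i, l i ≤ K := by
    obtain ⟨K, hK⟩ := (Set.finite_range l).bddAbove
    exact ⟨K, fun i => hK ⟨i, rfl⟩⟩
  have := Fintype.ofFinite ι
  have h2 : ∀ s : Finset ι, ∃ r, r ≤ c K ∧ ∀ i ∈ s, QM B r (t i) := by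
    intro s
    induction s using Finset.induction_on with
    | empty => exact ⟨c K, le_rfl, fun i hi => by simp at hi⟩
    | insert i s _ ih =>
      obtain ⟨r, hr, h3⟩ := ih
      obtain ⟨r', hr', h4⟩ := hl i r (hr.trans (hle _ _ (hK i)))
      refine ⟨r', hr'.trans hr, fun j hj => ?_⟩
      rw [Finset.mem_insert] at hj
      rcases hj with rfl | hj
      · exact h4
      · exact QM_mono _ _ _ hr' (h3 j hj)
  obtain ⟨r, _, hr⟩ := h2 Finset.univ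
  exact ⟨r, fun i => hr i (Finset.mem_univ i)⟩

theorem g_uni (hg : Gn ν c) {o k : ℕ} (ho : ν o = oN (Cond B) Ω)
    (hk : ν k = mN B) (x y z z' : GQ ν c) (hx : E x (qc ν c o)) (hy : E y (qc ν c o))
    (hz : E z (qc ν c o)) (hz' : E z' (qc ν c o)) (h1 : Trr x y z (qc ν c k))
    (h2 : Trr x y z' (qc ν c k)) : z' = z := by
  obtain ⟨ξ, m, hm, rfl⟩ := (ev_o hg ho x).1 hx
  obtain ⟨η, m', hm', rfl⟩ := (ev_o hg ho y).1 hy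
  obtain ⟨ζ, n, hn, rfl⟩ := (ev_o hg ho z).1 hz
  obtain ⟨ζ', n', hn', rfl⟩ := (ev_o hg ho z').1 hz'
  obtain ⟨r, hr⟩ := common hg hk (ι := Fin 2) ![(ξ, η, ζ), (ξ, η, ζ')]
    ![(m, m', n), (m, m', n')] (fun i => by fin_cases i <;> exact ⟨hm, hm', by assumption⟩)
    (fun i => by fin_cases i <;> assumption)
  have e0 : r.mul ξ η = ζ := (hr 0).2.2
  have e1 : r.mul ξ η = ζ' := (hr 1).2.2
  exact (ev_eq hg hn' hn).2 (e1.symm.trans e0)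

theorem g_asc (hg : Gn ν c) {o k : ℕ} (ho : ν o = oN (Cond B) Ω) (hk : ν k = mN B)
    (x y z a b p q : GQ ν c) (hx : E x (qc ν c o)) (hy : E y (qc ν c o)) (hz : E z (qc ν c o))
    (ha : E a (qc ν c o)) (hb : E b (qc ν c o)) (hp : E p (qc ν c o)) (hq : E q (qc ν c o))
    (h1 : Trr x y a (qc ν c k)) (h2 : Trr a z p (qc ν c k)) (h3 : Trr y z b (qc ν c k))
    (h4 : Trr x b q (qc ν c k)) : p = q := by
  obtain ⟨x, i1, k1, rfl⟩ := (ev_o hg ho x).1 hx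
  obtain ⟨y, i2, k2, rfl⟩ := (ev_o hg ho y).1 hy
  obtain ⟨z, i3, k3, rfl⟩ := (ev_o hg ho z).1 hz
  obtain ⟨a, i4, k4, rfl⟩ := (ev_o hg ho a).1 ha
  obtain ⟨b, i5, k5, rfl⟩ := (ev_o hg ho b).1 hb
  obtain ⟨p, i6, k6, rfl⟩ := (ev_o hg ho p).1 hp
  obtain ⟨q, i7, k7, rfl⟩ := (ev_o hg ho q).1 hq
  obtain ⟨r, hr⟩ := common hg hk (ι := Fin 4) ![(x, y, a), (a, z, p), (y, z, b), (x, b, q)]
    ![(i1, i2, i4), (i4, i3, i6), (i2, i3, i5), (i1, i5, i7)]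
    (fun i => by fin_cases i <;> exact ⟨by assumption, by assumption, by assumption⟩)
    (fun i => by fin_cases i <;> assumption)
  obtain ⟨m1, m2, e0⟩ := hr 0
  obtain ⟨m3, m4, e1⟩ := hr 1
  obtain ⟨m5, m6, e2⟩ := hr 2
  obtain ⟨m7, m8, e3⟩ := hr 3
  simp at m1 m2 e0 m3 m4 e1 m5 m6 e2 m7 m8 e3
  refine (ev_eq hg k6 k7).2 ?_
  rw [← e1, ← e0, ← e3, ← e2]
  exact r.assoc x m1 y m2 z m4

theorem cond_mul_one (p : Cond B) {x : Ω} (hx : x ∈ p.dom) : p.mul x B.e = x :=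
  congrArg Subtype.val (@mul_one (Gp p) _ ⟨x, hx⟩)

theorem cond_mul_inv (p : Cond B) {x : Ω} (hx : x ∈ p.dom) : p.mul x (p.inv x) = B.e :=
  congrArg Subtype.val (@mul_inv_cancel (Gp p) _ ⟨x, hx⟩)

/-- a dense value holds -/
theorem ev_m_dense (hg : Gn ν c) {k a b d : ℕ} {ξ η ζ : Ω} (hk : ν k = mN B)
    (ha : ν a = chkH ξ) (hb : ν b = chkH η) (hd : ν d = chkH ζ)
    (h : ∀ p : Cond B, ∃ r, r ≤ p ∧ QM B r (ξ, η, ζ)) :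
    Trr (qc ν c a) (qc ν c b) (qc ν c d) (qc ν c k) :=
  (ev_m hg hk ha hb hd).2 ⟨0, fun q _ => h q⟩

theorem g_one (hg : Gn ν c) (hr : Rich ν) {o k : ℕ} (ho : ν o = oN (Cond B) Ω)
    (hk : ν k = mN B) : ∃ e, E e (qc ν c o) ∧ (∀ x, E x (qc ν c o) → Trr e x x (qc ν c k) ∧
      Trr x e x (qc ν c k)) ∧ ∀ x, E x (qc ν c o) → ∃ y, E y (qc ν c o) ∧
        Trr x y e (qc ν c k) ∧ Trr y x e (qc ν c k) := by
  refine fb_get (Cond B) ν c hg (fun N _ (w : Fin 2 → N) => ∃ e, E e (w 0) ∧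
    (∀ x, E x (w 0) → Trr e x x (w 1) ∧ Trr x e x (w 1)) ∧
    ∀ x, E x (w 0) → ∃ y, E y (w 0) ∧ Trr x y e (w 1) ∧ Trr y x e (w 1)) ![o, k] 0
    (fun _ => True) (fun q _ => ⟨q, le_rfl, trivial⟩) fun _ _ _ => ?_
  refine ⟨fun _ => chkH B.e, fun ν' c' hg' hr' hl w' hw' u hu => ?_⟩
  have w0 : ν' (w' 0) = oN (Cond B) Ω := (hw' 0).trans ho
  have w1 : ν' (w' 1) = mN B := (hw' 1).trans hk
  have u0 : ν' (u 0) = chkH B.e := hu 0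
  refine ⟨qc ν' c' (u 0), (ev_o hg' w0 _).2 ⟨_, _, u0, rfl⟩, fun x hx => ?_, fun x hx => ?_⟩
  · obtain ⟨ξ, m, hm, rfl⟩ := (ev_o hg' w0 x).1 hx
    refine ⟨ev_m_dense hg' w1 u0 hm hm fun p => ?_, ev_m_dense hg' w1 hm u0 hm fun p => ?_⟩
    · obtain ⟨r, hr1, hr2⟩ := ext Ω Λ B p ξ
      exact ⟨r, hr1, r.one_mem, hr2, r.one_mul _ hr2⟩
    · obtain ⟨r, hr1, hr2⟩ := ext Ω Λ B p ξ
      exact ⟨r, hr1, hr2, r.one_mem, cond_mul_one r hr2⟩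
  · obtain ⟨ξ, m, hm, rfl⟩ := (ev_o hg' w0 x).1 hx
    refine fb_get (Cond B) ν' c' hg' (fun N _ (w : Fin 4 → N) => ∃ y, E y (w 0) ∧
      Trr (w 2) y (w 3) (w 1) ∧ Trr y (w 2) (w 3) (w 1)) ![w' 0, w' 1, m, u 0] 0
      (fun r => ξ ∈ r.dom) (fun q _ => ext Ω Λ B q ξ) fun r hr1 _ => ?_
    refine ⟨fun _ => chkH (r.inv ξ), fun ν₂ c₂ hg₂ hr₂ hl₂ w₂ hw₂ u₂ hu₂ => ?_⟩
    have v0 : ν₂ (w₂ 0) = oN (Cond B) Ω := (hw₂ 0).trans w0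
    have v1 : ν₂ (w₂ 1) = mN B := (hw₂ 1).trans w1
    have v2 : ν₂ (w₂ 2) = chkH ξ := (hw₂ 2).trans hm
    have v3 : ν₂ (w₂ 3) = chkH B.e := (hw₂ 3).trans u0
    have x0 : ν₂ (u₂ 0) = chkH (r.inv ξ) := hu₂ 0
    exact ⟨qc ν₂ c₂ (u₂ 0), (ev_o hg₂ v0 _).2 ⟨_, _, x0, rfl⟩,
      ev_m_of hg₂ v1 v2 x0 v3 (r := r) ⟨hr1, r.inv_mem _ hr1, cond_mul_inv r hr1⟩ hl₂,
      ev_m_of hg₂ v1 x0 v2 v3 (r := r) ⟨r.inv_mem _ hr1, hr1, r.inv_mul _ hr1⟩ hl₂⟩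

end

end CAY
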