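import Pool.Agent.H77.CAY.GenA
import Pool.Agent.H77.CAY.Cat
import Pool.Agent.H77.CAY.Amg2

/-!
Uncountability and the catching property in the generic quotient.
-/

set_option autoImplicit false
set_option linter.unusedVariables false
set_option synthInstance.maxSize 100000

namespace CAY

open SW CU CUR SSA

theorem fn_val {N : Type} [SetStr N] [ZF N] {f a b x y : N} (h : IsFn f a b)
    (hxy : PairIn x y f) : E x a ∧ E y b := by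
  rw [pairIn_iff] at hxy
  obtain ⟨x', y', h1, h2, h3⟩ := ((fb_isFn f a b).1 h).1 _ hxy
  rw [opair_inj] at h3
  rw [h3.1, h3.2]
  exact ⟨h1, h2⟩

section
variable {Ω Λ : Type} [LinearOrder Λ] [WellFoundedLT Λ] [LinearOrder Ω] [WellFoundedLT Ω]
  {B : Base Ω Λ}

/-- the forced injection has values -/
theorem val_om {f : HN (Cond B) Tg} {p : Cond B}
    (hk : FS (fun N _ (w : Fin 3 → N) => IsInjFn (w 0) (w 1) (w 2)) p
      ![f, oN (Cond B) Ω, omH (Cond B) Tg]) (ξ : Ω) : ∃ (q : Cond B) (n : ℕ), q ≤ p ∧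
    FS (fun N _ (w : Fin 3 → N) => PairIn (w 0) (w 1) (w 2)) q
      ![chkH ξ, numH (Cond B) Tg n, f] := by
  obtain ⟨ν', c', u, hg', hc', hr', hu'⟩ := gen_rich p (fun i => match i with
    | 0 => f
    | 1 => oN (Cond B) Ω
    | _ => chkH ξ)
  have := gn_zf hg'
  obtain ⟨d1, d2, d3⟩ := ssa_bas _ ν' c' hg' hr'
  obtain ⟨j, hj⟩ := hr'.2
  have hf : IsInjFn (qc ν' c' (u 0)) (qc ν' c' (u 1)) (qc ν' c' j) :=
    hk ν' c' hg' ⟨0, hc'⟩ ![u 0, u 1, j] (fun t => by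
      fin_cases t
      · exact hu' 0
      · exact hu' 1
      · exact hj)
  obtain ⟨y, hy⟩ := hf.1.2.1 (qc ν' c' (u 2)) ((ev_o hg' (hu' 1) _).2 ⟨ξ, _, hu' 2, rfl⟩)
  have hyo := (fn_val hf.1 hy).2
  rw [d3 _ hj] at hyo
  obtain ⟨n, rfl⟩ := d1 y hyo
  obtain ⟨i, hi⟩ := hr'.1 n
  rw [← d2 i n hi] at hy
  obtain ⟨l, hl⟩ := pr_forced hg' (u 2) i (u 0) hy
  refine ⟨c' l, n, (le_of_anti hg'.anti 0 l (Nat.zero_le _)).trans hc', ?_⟩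
  rw [hu' 2, hi, hu' 0] at hl
  exact hl

/-- the forced injection has values -/
theorem val_o {f : HN (Cond B) Tg} {p : Cond B}
    (hk : FS (fun N _ (w : Fin 3 → N) => IsInjFn (w 0) (w 1) (w 2)) p
      ![f, oN (Cond B) Ω, oN (Cond B) Ω]) (ξ : Ω) : ∃ (q : Cond B) (a : Ω), q ≤ p ∧ a ∈ q.dom ∧
    FS (fun N _ (w : Fin 3 → N) => PairIn (w 0) (w 1) (w 2)) q ![chkH ξ, chkH a, f] := by
  obtain ⟨ν', c', u, hg', hc', hr', hu'⟩ := gen_rich p (fun i => match i with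
    | 0 => f
    | 1 => oN (Cond B) Ω
    | _ => chkH ξ)
  have := gn_zf hg'
  have hf : IsInjFn (qc ν' c' (u 0)) (qc ν' c' (u 1)) (qc ν' c' (u 1)) :=
    hk ν' c' hg' ⟨0, hc'⟩ ![u 0, u 1, u 1] (fun t => by
      fin_cases t
      · exact hu' 0
      · exact hu' 1
      · exact hu' 1)
  obtain ⟨y, hy⟩ := hf.1.2.1 (qc ν' c' (u 2)) ((ev_o hg' (hu' 1) _).2 ⟨ξ, _, hu' 2, rfl⟩)
  have hyo := (fn_val hf.1 hy).2
  obtain ⟨a, i, hi, rfl⟩ := (ev_o hg' (hu' 1) y).1 hyo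
  obtain ⟨l, hl⟩ := pr_forced hg' (u 2) i (u 0) hy
  rw [hu' 2, hi, hu' 0] at hl
  obtain ⟨r, hr1, hr2⟩ := ext Ω Λ B (c' l) a
  exact ⟨r, a, (hr1.trans (le_of_anti hg'.anti 0 l (Nat.zero_le _))).trans hc', hr2,
    fs_mono _ hr1 hl⟩

variable {ν : ℕ → HN (Cond B) Tg} {c : ℕ → Cond B}

theorem g_unc (hΩ : ∀ ξ : Ω, (Set.Iic ξ).Countable) (hun : ¬ (Set.univ : Set Ω).Countable)
    {Er : Ω → Ω → Prop} (hS : Sier Er) (hg : Gn ν c) (hr : Rich ν) [ZF (GQ ν c)] {o : ℕ}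
    (ho : ν o = oN (Cond B) Ω) : ¬ SizeLe (qc ν c o) (om : GQ ν c) := by
  rintro ⟨f, hf⟩
  obtain ⟨m0, rfl⟩ := gn_surj f
  obtain ⟨j, hj⟩ := hr.2
  obtain ⟨b1, b2, b3⟩ := ssa_bas (Cond B) ν c hg hr
  rw [← b3 j hj] at hf
  obtain ⟨k, hk⟩ := (fs_truth (fun N _ (w : Fin 3 → N) => IsInjFn (w 0) (w 1) (w 2)) ν c hg
    ![m0, o, j]).1 hf
  have e : (fun i => ν (![m0, o, j] i)) = ![ν m0, oN (Cond B) Ω, omH (Cond B) Tg] := by
    funext i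
    fin_cases i
    · rfl
    · exact ho
    · exact hj
  rw [e] at hk
  choose p n hp hn using val_om hk
  obtain ⟨n0, hn0⟩ : ∃ n0, ¬ {ξ | n ξ = n0}.Countable := by
    by_contra hcon
    push Not at hcon
    exact hun ((Set.countable_iUnion hcon).mono (fun ξ _ => Set.mem_iUnion.2 ⟨n ξ, rfl⟩))
  obtain ⟨α, hα, β, hβ, γ, hγ, hne, hne', _, _, q, w, hq1, hq2, hq3, _⟩ :=
    cat amg Ω Λ B hΩ Er hS {ξ | n ξ = n0} hn0 p (fun _ => B.e) (fun α _ => (p α).one_mem)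
  obtain ⟨ν', c', u, hg', hc', hr', hu'⟩ := gen_rich q (fun i => match i with
    | 0 => ν m0
    | 1 => oN (Cond B) Ω
    | 2 => omH (Cond B) Tg
    | 3 => numH (Cond B) Tg n0
    | 4 => chkH α
    | _ => chkH γ)
  have hα' : n α = n0 := hα
  have hγ' : n γ = n0 := hγ
  have hf' : IsInjFn (qc ν' c' (u 0)) (qc ν' c' (u 1)) (qc ν' c' (u 2)) :=
    hk ν' c' hg' ⟨0, hc'.trans (hq1.trans (hp α))⟩ ![u 0, u 1, u 2] (fun t => by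
      fin_cases t
      · exact hu' 0
      · exact hu' 1
      · exact hu' 2)
  have h1 : PairIn (qc ν' c' (u 4)) (qc ν' c' (u 3)) (qc ν' c' (u 0)) :=
    pr_use (hn α) hg' ⟨0, hc'.trans hq1⟩ (hu' 4) (by rw [hα']; exact hu' 3) (hu' 0)
  have h2 : PairIn (qc ν' c' (u 5)) (qc ν' c' (u 3)) (qc ν' c' (u 0)) :=
    pr_use (hn γ) hg' ⟨0, hc'.trans hq3⟩ (hu' 5) (by rw [hγ']; exact hu' 3) (hu' 0)
  exact hne ((ev_eq hg' (hu' 4) (hu' 5)).1 (hf'.2 _ _ _ h1 h2))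

theorem g_cat (hΩ : ∀ ξ : Ω, (Set.Iic ξ).Countable) (hun : ¬ (Set.univ : Set Ω).Countable)
    {Er : Ω → Ω → Prop} (hS : Sier Er) (hg : Gn ν c) (hr : Rich ν) {o k x : ℕ}
    (ho : ν o = oN (Cond B) Ω) (hk : ν k = mN B) (hx : ν x = xN (Cond B) Er) (f : GQ ν c)
    (hf : IsInjFn f (qc ν c o) (qc ν c o)) : ∃ α β γ a b d w, E α (qc ν c o) ∧
      E β (qc ν c o) ∧ E γ (qc ν c o) ∧ E a (qc ν c o) ∧ E b (qc ν c o) ∧ E d (qc ν c o) ∧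
      E w (qc ν c o) ∧ PairIn α γ (qc ν c x) ∧ ¬ PairIn β γ (qc ν c x) ∧ PairIn α a f ∧
      PairIn β b f ∧ PairIn γ d f ∧ Trr a w d (qc ν c k) ∧ Trr d w b (qc ν c k) := by
  obtain ⟨m0, rfl⟩ := gn_surj f
  obtain ⟨k0, hk0⟩ := (fs_truth (fun N _ (w : Fin 3 → N) => IsInjFn (w 0) (w 1) (w 2)) ν c hg
    ![m0, o, o]).1 hf
  have e : (fun i => ν (![m0, o, o] i)) = ![ν m0, oN (Cond B) Ω, oN (Cond B) Ω] := by
    funext i
    fin_cases i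
    · rfl
    · exact ho
    · exact ho
  rw [e] at hk0
  let V : Cond B → Prop := fun q => ∃ α β γ a b d w : Ω, Er α γ ∧ ¬ Er β γ ∧
    QM B q (a, w, d) ∧ QM B q (d, w, b) ∧
    FS (fun N _ (w : Fin 3 → N) => PairIn (w 0) (w 1) (w 2)) q ![chkH α, chkH a, ν m0] ∧
    FS (fun N _ (w : Fin 3 → N) => PairIn (w 0) (w 1) (w 2)) q ![chkH β, chkH b, ν m0] ∧
    FS (fun N _ (w : Fin 3 → N) => PairIn (w 0) (w 1) (w 2)) q ![chkH γ, chkH d, ν m0]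
  have hV : ∀ q, q ≤ c k0 → ∃ r, r ≤ q ∧ V r := by
    intro q0 hq0
    choose p v hp hv hv' using val_o (fs_mono _ hq0 hk0)
    obtain ⟨α, _, β, _, γ, _, hne, hne', h1, h2, q, w, hq1, hq2, hq3, hw, h3, h4⟩ :=
      cat amg Ω Λ B hΩ Er hS Set.univ hun p v (fun α _ => hv α)
    exact ⟨q, hq1.trans (hp α), α, β, γ, v α, v β, v γ, w, h1, h2,
      ⟨hq1.1 (hv α), hw, h3⟩, ⟨hq3.1 (hv γ), hw, h4⟩, fs_mono _ hq1 (hv' α),
      fs_mono _ hq2 (hv' β), fs_mono _ hq3 (hv' γ)⟩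
  refine fb_get (Cond B) ν c hg (fun N _ (w : Fin 4 → N) => ∃ α β γ a b d y, E α (w 0) ∧
      E β (w 0) ∧ E γ (w 0) ∧ E a (w 0) ∧ E b (w 0) ∧ E d (w 0) ∧
      E y (w 0) ∧ PairIn α γ (w 2) ∧ ¬ PairIn β γ (w 2) ∧ PairIn α a (w 3) ∧
      PairIn β b (w 3) ∧ PairIn γ d (w 3) ∧ Trr a y d (w 1) ∧ Trr d y b (w 1))
    ![o, k, x, m0] k0 V hV (fun r hr1 _ => ?_)
  obtain ⟨α, β, γ, a, b, d, y, h1, h2, h3, h4, h5, h6, h7⟩ := hr1
  refine ⟨fun i => match i with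
    | 0 => chkH α
    | 1 => chkH β
    | 2 => chkH γ
    | 3 => chkH a
    | 4 => chkH b
    | 5 => chkH d
    | _ => chkH y, fun ν' c' hg' hr' hl w' hw' u hu => ?_⟩
  have w0 : ν' (w' 0) = oN (Cond B) Ω := (hw' 0).trans ho
  have w1 : ν' (w' 1) = mN B := (hw' 1).trans hk
  have w2 : ν' (w' 2) = xN (Cond B) Er := (hw' 2).trans hx
  have w3 : ν' (w' 3) = ν m0 := hw' 3
  have u0 : ν' (u 0) = chkH α := hu 0
  have u1 : ν' (u 1) = chkH β := hu 1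
  have u2 : ν' (u 2) = chkH γ := hu 2
  have u3 : ν' (u 3) = chkH a := hu 3
  have u4 : ν' (u 4) = chkH b := hu 4
  have u5 : ν' (u 5) = chkH d := hu 5
  have u6 : ν' (u 6) = chkH y := hu 6
  have mem : ∀ {t : ℕ} {ξ : Ω}, ν' t = chkH ξ → E (qc ν' c' t) (qc ν' c' (w' 0)) :=
    fun {t ξ} ht => (ev_o hg' w0 _).2 ⟨ξ, t, ht, rfl⟩
  refine ⟨qc ν' c' (u 0), qc ν' c' (u 1), qc ν' c' (u 2), qc ν' c' (u 3), qc ν' c' (u 4),
    qc ν' c' (u 5), qc ν' c' (u 6), mem u0, mem u1, mem u2, mem u3, mem u4, mem u5, mem u6,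
    (ev_x hg' w2 u0 u2).2 h1, fun h => h2 ((ev_x hg' w2 u1 u2).1 h), pr_use h5 hg' hl u0 u3 w3,
    pr_use h6 hg' hl u1 u4 w3, pr_use h7 hg' hl u2 u5 w3, ev_m_of hg' w1 u3 u6 u5 h3 hl,
    ev_m_of hg' w1 u5 u6 u4 h4 hl⟩

end

end CAY
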