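import Pool.Agent.H77.CAY.Defs
import Pool.Agent.H27.SSA.REL
import Pool.Agent.H27.SSA.PIN
import Pool.Agent.H89.SSA.CHO
import Pool.Agent.H8.SSA.DMF
import Pool.Agent.H77.SSA.fb.GET
import Pool.Agent.H77.SSA.fb.SMP
import Pool.Agent.H77.SSA.fb.SIZ

/-! Names and their values in the generic quotient. -/

set_option autoImplicit false
set_option linter.unusedVariables false
set_option synthInstance.maxSize 100000

namespace CAY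

open SW CU CUR SSA

section
variable {P : Type} [Preorder P] {ν : ℕ → HN P Tg} {c : ℕ → P}

theorem pr_iff (hg : Gn ν c) (a b k : ℕ) : PairIn (qc ν c a) (qc ν c b) (qc ν c k) ↔
    ∃ l, MemF (opN (ν a) (ν b)).1 (ν k).1 (c l) := by
  have h1 := fs_truth (fun N _ (w : Fin 3 → N) => PairIn (w 0) (w 1) (w 2)) ν c hg ![a, b, k]
  have e : (fun i => ν (![a, b, k] i)) = ![ν a, ν b, ν k] := by
    funext i
    fin_cases i <;> rfl
  rw [e] at h1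
  refine Iff.trans h1 (exists_congr fun l => ?_)
  exact (ssa_pin P (c l) (ν a) (ν b) (ν k) (ν k)).1

theorem tr_iff (hg : Gn ν c) (a b d k : ℕ) :
    Trr (qc ν c a) (qc ν c b) (qc ν c d) (qc ν c k) ↔
    ∃ l, MemF (opN (ν a) (opN (ν b) (ν d))).1 (ν k).1 (c l) := by
  have h1 := fs_truth (fun N _ (w : Fin 4 → N) => Trr (w 0) (w 1) (w 2) (w 3)) ν c hg
    ![a, b, d, k]
  have e : (fun i => ν (![a, b, d, k] i)) = ![ν a, ν b, ν d, ν k] := by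
    funext i
    fin_cases i <;> rfl
  rw [e] at h1
  refine Iff.trans h1 (exists_congr fun l => ?_)
  exact (ssa_pin P (c l) (ν a) (ν b) (ν d) (ν k)).2

/-- forced pairs -/
theorem pr_forced (hg : Gn ν c) (a b k : ℕ)
    (h : PairIn (qc ν c a) (qc ν c b) (qc ν c k)) :
    ∃ l, FS (fun N _ (w : Fin 3 → N) => PairIn (w 0) (w 1) (w 2)) (c l) ![ν a, ν b, ν k] := by
  have h1 := (fs_truth (fun N _ (w : Fin 3 → N) => PairIn (w 0) (w 1) (w 2)) ν c hg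
    ![a, b, k]).1 h
  have e : (fun i => ν (![a, b, k] i)) = ![ν a, ν b, ν k] := by
    funext i
    fin_cases i <;> rfl
  rw [e] at h1
  exact h1

/-- use of a forced pair -/
theorem pr_use {a b f : HN P Tg} {q : P}
    (h : FS (fun N _ (w : Fin 3 → N) => PairIn (w 0) (w 1) (w 2)) q ![a, b, f])
    (hg : Gn ν c) (hq : ∃ k, c k ≤ q) {i j k : ℕ} (hi : ν i = a) (hj : ν j = b) (hk : ν k = f) :
    PairIn (qc ν c i) (qc ν c j) (qc ν c k) := by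
  refine h ν c hg hq ![i, j, k] (fun t => ?_)
  fin_cases t
  · exact hi
  · exact hj
  · exact hk

end

section
variable {Ω Λ : Type} [LinearOrder Λ] [LinearOrder Ω] [WellFoundedLT Ω]

/-- the multiplication is decided -/
def QM (B : Base Ω Λ) (p : Cond B) (i : Ω × Ω × Ω) : Prop :=
  i.1 ∈ p.dom ∧ i.2.1 ∈ p.dom ∧ p.mul i.1 i.2.1 = i.2.2

theorem QM_mono {B : Base Ω Λ} (p q : Cond B) (i : Ω × Ω × Ω) (h : q ≤ p) (hp : QM B p i) :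
    QM B q i := ⟨h.1 hp.1, h.1 hp.2.1, (h.2 _ hp.1 _ hp.2.1).trans hp.2.2⟩

/-- the name of the multiplication -/
noncomputable def mN (B : Base Ω Λ) : HN (Cond B) Tg := relN (Ω × Ω × Ω) (QM B)
  (fun i => opN (chkH i.1) (opN (chkH i.2.1) (chkH i.2.2)))

/-- the name of the graph -/
noncomputable def xN (P : Type) [Preorder P] (Er : Ω → Ω → Prop) : HN P Tg :=
  relN (Ω × Ω) (fun _ i => Er i.1 i.2) (fun i => opN (chkH i.1) (chkH i.2))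

/-- the name of an enumeration of the predecessors of `ξ` -/
noncomputable def cN (P : Type) [Preorder P] (g : Ω → ℕ) (ξ : Ω) : HN P Tg :=
  relN (Ω × ℕ) (fun _ i => i.1 < ξ ∧ g i.1 = i.2) (fun i => opN (chkH i.1) (numH P Tg i.2))

variable {P : Type} [Preorder P] {ν : ℕ → HN P Tg} {c : ℕ → P}

theorem ev_o (hg : Gn ν c) {o : ℕ} (ho : ν o = oN P Ω) (y : GQ ν c) :
    E y (qc ν c o) ↔ ∃ (ξ : Ω) (m : ℕ), ν m = chkH ξ ∧ y = qc ν c m := by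
  rw [gn_mem_iff' hg]
  constructor
  · rintro ⟨m, l, i, h1, h2, rfl⟩
    have gen : ∀ b : Nm P, b = (oN P Ω).1 → ∀ i : b.I, ∃ ξ : Ω, b.el i = chk ξ := by
      rintro _ rfl i
      exact ⟨i.1, rfl⟩
    obtain ⟨ξ, hξ⟩ := gen (ν o).1 (by rw [ho]) i
    exact ⟨ξ, m, Subtype.ext (h1.symm.trans hξ), rfl⟩
  · rintro ⟨ξ, m, hm, rfl⟩
    have gen : ∀ b : Nm P, b = (oN P Ω).1 → ∃ i : b.I, b.el i = chk ξ ∧ c 0 ≤ b.cd i := by
      rintro _ rfl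
      exact ⟨(ξ, c 0), rfl, le_rfl⟩
    obtain ⟨i, h1, h2⟩ := gen (ν o).1 (by rw [ho])
    exact ⟨m, 0, i, by rw [h1, hm]; rfl, h2, rfl⟩

theorem ev_eq (hg : Gn ν c) {m m' : ℕ} {ξ ξ' : Ω} (hm : ν m = chkH ξ) (hm' : ν m' = chkH ξ') :
    qc ν c m = qc ν c m' ↔ ξ = ξ' := by
  rw [gn_eq_iff hg]
  constructor
  · rintro ⟨k, hk⟩
    rw [hm, hm'] at hk
    exact (ssa_nmi P).2.2 Ω ξ ξ' _ hk
  · rintro rfl
    exact ⟨0, by rw [hm, hm']; exact eqF_refl _ _⟩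

theorem ev_lt (hg : Gn ν c) {m : ℕ} {ξ : Ω} (hm : ν m = chkH ξ) (y : GQ ν c) :
    E y (qc ν c m) ↔ ∃ (η : Ω) (m' : ℕ), η < ξ ∧ ν m' = chkH η ∧ y = qc ν c m' := by
  rw [gn_mem_iff' hg]
  constructor
  · rintro ⟨m', l, i, h1, h2, rfl⟩
    have gen : ∀ b : Nm P, b = chk ξ → ∀ i : b.I, ∃ η : Ω, η < ξ ∧ b.el i = chk η := by
      rintro b hb i
      rw [chk_eq] at hb
      subst hb
      exact ⟨i.1.1, i.1.2, rfl⟩
    obtain ⟨η, h3, h4⟩ := gen (ν m).1 (by rw [hm]; rfl) i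
    exact ⟨η, m', h3, Subtype.ext (h1.symm.trans h4), rfl⟩
  · rintro ⟨η, m', hη, hm', rfl⟩
    have gen : ∀ b : Nm P, b = chk ξ → ∃ i : b.I, b.el i = chk η ∧ c 0 ≤ b.cd i := by
      rintro b hb
      rw [chk_eq] at hb
      subst hb
      exact ⟨(⟨η, hη⟩, c 0), rfl, le_rfl⟩
    obtain ⟨i, h1, h2⟩ := gen (ν m).1 (by rw [hm]; rfl)
    exact ⟨m', 0, i, by rw [h1, hm']; rfl, h2, rfl⟩

theorem ev_x (hg : Gn ν c) {Er : Ω → Ω → Prop} {k a b : ℕ} {ξ η : Ω} (hk : ν k = xN P Er)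
    (ha : ν a = chkH ξ) (hb : ν b = chkH η) :
    PairIn (qc ν c a) (qc ν c b) (qc ν c k) ↔ Er ξ η := by
  rw [pr_iff hg, hk, ha, hb]
  have h1 : ∀ l, MemF (opN (chkH ξ) (chkH η)).1 (xN P Er).1 (c l) ↔
      Fo (fun (_ : P) (i : Ω × Ω) => Er i.1 i.2) (c l) (ξ, η) := by
    intro l
    refine ssa_rel P (Ω × Ω) (fun _ i => Er i.1 i.2) (fun i => opN (chkH i.1) (chkH i.2))
      (fun _ _ _ _ h => h) (fun i j p h => ?_) (ξ, η) (c l)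
    obtain ⟨h1, h2⟩ := (ssa_nmi P).2.1 _ _ _ _ _ h
    exact Prod.ext ((ssa_nmi P).2.2 Ω _ _ _ h1) ((ssa_nmi P).2.2 Ω _ _ _ h2)
  simp only [h1]
  constructor
  · rintro ⟨l, h⟩
    obtain ⟨r, _, h⟩ := h (c l) le_rfl
    exact h
  · intro h
    exact ⟨0, fun q _ => ⟨q, le_rfl, h⟩⟩

theorem ev_c (hg : Gn ν c) {g : Ω → ℕ} {ξ0 : Ω} {k a b : ℕ} {ξ : Ω} {n : ℕ}
    (hk : ν k = cN P g ξ0) (ha : ν a = chkH ξ) (hb : ν b = numH P Tg n) :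
    PairIn (qc ν c a) (qc ν c b) (qc ν c k) ↔ ξ < ξ0 ∧ g ξ = n := by
  rw [pr_iff hg, hk, ha, hb]
  have h1 : ∀ l, MemF (opN (chkH ξ) (numH P Tg n)).1 (cN P g ξ0).1 (c l) ↔
      Fo (fun (_ : P) (i : Ω × ℕ) => i.1 < ξ0 ∧ g i.1 = i.2) (c l) (ξ, n) := by
    intro l
    refine ssa_rel P (Ω × ℕ) (fun _ i => i.1 < ξ0 ∧ g i.1 = i.2)
      (fun i => opN (chkH i.1) (numH P Tg i.2))
      (fun _ _ _ _ h => h) (fun i j p h => ?_) (ξ, n) (c l)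
    obtain ⟨h1, h2⟩ := (ssa_nmi P).2.1 _ _ _ _ _ h
    exact Prod.ext ((ssa_nmi P).2.2 Ω _ _ _ h1) ((ssa_nmi P).1 _ _ _ h2)
  simp only [h1]
  constructor
  · rintro ⟨l, h⟩
    obtain ⟨r, _, h⟩ := h (c l) le_rfl
    exact h
  · intro h
    exact ⟨0, fun q _ => ⟨q, le_rfl, h⟩⟩

end

section
variable {Ω Λ : Type} [LinearOrder Λ] [LinearOrder Ω] [WellFoundedLT Ω] {B : Base Ω Λ}
  {ν : ℕ → HN (Cond B) Tg} {c : ℕ → Cond B}

theorem ev_m (hg : Gn ν c) {k a b d : ℕ} {ξ η ζ : Ω} (hk : ν k = mN B)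
    (ha : ν a = chkH ξ) (hb : ν b = chkH η) (hd : ν d = chkH ζ) :
    Trr (qc ν c a) (qc ν c b) (qc ν c d) (qc ν c k) ↔ ∃ l, Fo (QM B) (c l) (ξ, η, ζ) := by
  rw [tr_iff hg, hk, ha, hb, hd]
  refine exists_congr fun l => ?_
  refine ssa_rel (Cond B) (Ω × Ω × Ω) (QM B)
    (fun i => opN (chkH i.1) (opN (chkH i.2.1) (chkH i.2.2)))
    (fun p q i h hp => QM_mono p q i h hp) (fun i j p h => ?_) (ξ, η, ζ) (c l)
  obtain ⟨h1, h2⟩ := (ssa_nmi (Cond B)).2.1 _ _ _ _ _ h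
  obtain ⟨h3, h4⟩ := (ssa_nmi (Cond B)).2.1 _ _ _ _ _ h2
  exact Prod.ext ((ssa_nmi (Cond B)).2.2 Ω _ _ _ h1)
    (Prod.ext ((ssa_nmi (Cond B)).2.2 Ω _ _ _ h3) ((ssa_nmi (Cond B)).2.2 Ω _ _ _ h4))

/-- a value of the multiplication holds in a stronger condition -/
theorem ev_m_get (hg : Gn ν c) {k a b d : ℕ} {ξ η ζ : Ω} (hk : ν k = mN B)
    (ha : ν a = chkH ξ) (hb : ν b = chkH η) (hd : ν d = chkH ζ)
    (h : Trr (qc ν c a) (qc ν c b) (qc ν c d) (qc ν c k)) :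
    ∃ l, ∀ q, q ≤ c l → ∃ r, r ≤ q ∧ QM B r (ξ, η, ζ) := (ev_m hg hk ha hb hd).1 h

theorem ev_m_of (hg : Gn ν c) {k a b d : ℕ} {ξ η ζ : Ω} (hk : ν k = mN B)
    (ha : ν a = chkH ξ) (hb : ν b = chkH η) (hd : ν d = chkH ζ) {r : Cond B}
    (hr : QM B r (ξ, η, ζ)) (hl : ∃ l, c l ≤ r) :
    Trr (qc ν c a) (qc ν c b) (qc ν c d) (qc ν c k) := by
  obtain ⟨l, hl⟩ := hl
  exact (ev_m hg hk ha hb hd).2 ⟨l, fun q hq => ⟨q, le_rfl, QM_mono _ _ _ (hq.trans hl) hr⟩⟩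

end

end CAY
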